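import Mathlib

set_option autoImplicit false

namespace Pool.Agent.H787Z.LF

open Finset

theorem count_hits {I V : Type} [Fintype I] [Fintype V] [DecidableEq I] [DecidableEq V]
    (hV : 0 < Fintype.card V) (F : Finset I) (Q : Finset V) (r : ℕ) :
    ((univ.filter (fun ω : I → V => r ≤ (F.filter (fun i => ω i ∈ Q)).card)).card : ℝ) ≤
      (F.card.choose r : ℝ) * ((Q.card : ℝ) / Fintype.card V) ^ r * Fintype.card (I → V) := by
  have hV' : (0 : ℝ) < Fintype.card V := by exact_mod_cast hV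
  have hsub : univ.filter (fun ω : I → V => r ≤ (F.filter (fun i => ω i ∈ Q)).card) ⊆
      (powersetCard r F).biUnion
        (fun F' => Fintype.piFinset (fun i => if i ∈ F' then Q else univ)) := by
    intro ω hω
    obtain ⟨F', h1, h2⟩ := exists_subset_card_eq (mem_filter.1 hω).2
    refine mem_biUnion.2 ⟨F', mem_powersetCard.2 ⟨h1.trans (filter_subset _ _), h2⟩, ?_⟩
    refine Fintype.mem_piFinset.2 fun i => ?_
    split_ifs with h
    · exact (mem_filter.1 (h1 h)).2
    · exact mem_univ _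
  have h1 : ∀ F' ∈ powersetCard r F,
      ((Fintype.piFinset (fun i => if i ∈ F' then Q else univ)).card : ℝ) =
        ((Q.card : ℝ) / Fintype.card V) ^ r * Fintype.card (I → V) := by
    intro F' hF'
    rw [Fintype.card_piFinset, Nat.cast_prod]
    have : ∀ i, (((if i ∈ F' then Q else univ).card : ℕ) : ℝ) =
        (if i ∈ F' then (Q.card : ℝ) / Fintype.card V else 1) * Fintype.card V := by
      intro i
      split_ifs
      · field_simp
      · simp
    simp only [this]
    rw [prod_mul_distrib, prod_ite_mem, univ_inter, prod_const, (mem_powersetCard.1 hF').2]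
    simp
  calc _ ≤ ((∑ F' ∈ powersetCard r F,
        (Fintype.piFinset (fun i => if i ∈ F' then Q else univ)).card : ℕ) : ℝ) := by
        exact_mod_cast (card_le_card hsub).trans card_biUnion_le
    _ = _ := by
        rw [Nat.cast_sum, sum_congr rfl h1, sum_const, card_powersetCard, nsmul_eq_mul, mul_assoc]

theorem choose_le_three (a r : ℕ) (hr : 0 < r) : (a.choose r : ℝ) ≤ (3 * a / r) ^ r := by
  have hr' : (0 : ℝ) < r := by exact_mod_cast hr
  have h1 : (a.choose r : ℝ) ≤ (a : ℝ) ^ r / r.factorial := Nat.choose_le_pow_div r a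
  have h2 := Real.pow_div_factorial_le_exp (x := (r : ℝ)) hr'.le r
  have h3 : Real.exp r ≤ 3 ^ r := by
    rw [← Real.exp_one_pow]
    exact pow_le_pow_left₀ (Real.exp_pos _).le (by linarith [Real.exp_one_lt_d9]) r
  have h4 : (0 : ℝ) < r.factorial := by exact_mod_cast r.factorial_pos
  refine h1.trans ?_
  rw [div_pow, mul_pow, div_le_div_iff₀ h4 (by positivity)]
  have h5 : (r : ℝ) ^ r ≤ 3 ^ r * r.factorial := by
    rw [div_le_iff₀ h4] at h2
    exact h2.trans (mul_le_mul_of_nonneg_right h3 h4.le)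
  calc (a : ℝ) ^ r * r ^ r ≤ a ^ r * (3 ^ r * r.factorial) :=
        mul_le_mul_of_nonneg_left h5 (by positivity)
    _ = _ := by ring

theorem num1 (D s m : ℕ) (hD : 6 ≤ D) (hs : s + 4 ≤ D) (hm : 1 ≤ m) :
    ((2 * D ^ (s + 1) * m).choose m : ℝ) * ((2 * D ^ (s + 1) * m).choose (D * m) : ℝ) *
      (1 / 2) ^ (m * D ^ 3) ≤ 1 / D := by
  have hD' : (6 : ℝ) ≤ D := by exact_mod_cast hD
  have hm' : (1 : ℝ) ≤ m := by exact_mod_cast hm
  have hD2 : (D : ℝ) ≤ 2 ^ D := by exact_mod_cast (Nat.lt_two_pow_self (n := D)).le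
  have hA : 6 * (D : ℝ) ^ (s + 1) ≤ 2 ^ (D * (s + 2)) := by
    rw [pow_mul]
    calc 6 * (D : ℝ) ^ (s + 1) ≤ D * D ^ (s + 1) := by gcongr
      _ = D ^ (s + 2) := by ring
      _ ≤ _ := by gcongr
  have h1 : ((2 * D ^ (s + 1) * m).choose m : ℝ) ≤ (2 ^ (D * (s + 2))) ^ m := by
    refine (choose_le_three _ _ hm).trans (pow_le_pow_left₀ (by positivity) ?_ _)
    refine le_trans (le_of_eq ?_) hA
    push_cast; field_simp; norm_num
  have h2 : ((2 * D ^ (s + 1) * m).choose (D * m) : ℝ) ≤ (2 ^ (D * (s + 2))) ^ (D * m) := by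
    refine (choose_le_three _ _ (by positivity)).trans (pow_le_pow_left₀ (by positivity) ?_ _)
    refine le_trans ?_ hA
    push_cast
    rw [div_le_iff₀ (by positivity)]
    have : (1 : ℝ) ≤ D := by linarith
    have h3 : (0 : ℝ) ≤ 6 * (D : ℝ) ^ (s + 1) * m := by positivity
    nlinarith
  have h3 : D * (s + 2) * m + D * (s + 2) * (D * m) + D ≤ m * D ^ 3 := by
    have a1 : (s + 2) * (D + 1) + 1 ≤ D ^ 2 := by nlinarith
    have a2 : D ≤ D * m := Nat.le_mul_of_pos_right _ hm
    have a3 := Nat.mul_le_mul_left (D * m) a1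
    nlinarith
  have h4 : (2 : ℝ) ^ (D * (s + 2) * m + D * (s + 2) * (D * m) + D) ≤ 2 ^ (m * D ^ 3) :=
    pow_le_pow_right₀ (by norm_num) h3
  rw [← pow_mul] at h1 h2
  rw [one_div_pow, mul_one_div, div_le_div_iff₀ (by positivity) (by positivity), one_mul]
  refine le_trans ?_ h4
  rw [pow_add (2 : ℝ), pow_add (2 : ℝ)]
  gcongr

theorem num2 (D s u n : ℕ) (hD : 9 ≤ D) (hs : 1 ≤ s) (hu : 1 ≤ u) (hn : 2 * D ^ (s + 4) * u ≤ n) :
    (n.choose u : ℝ) * (((u * D ^ 3).choose (u + (6 * u / s + 1)) : ℝ) *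
      ((u : ℝ) / n) ^ (u + (6 * u / s + 1))) ≤ 1 / D * (1 / 2) ^ u := by
  set ρ := 6 * u / s + 1 with hρ
  have hρ1 : 6 * u ≤ s * ρ := by
    have := Nat.lt_mul_div_succ (6 * u) (show 0 < s by omega)
    rw [hρ]; exact this.le
  have hD' : (9 : ℝ) ≤ D := by exact_mod_cast hD
  have hu' : (1 : ℝ) ≤ u := by exact_mod_cast hu
  have hn' : 2 * (D : ℝ) ^ (s + 4) * u ≤ n := by exact_mod_cast hn
  have hn0 : (0 : ℝ) < n := lt_of_lt_of_le (by positivity) hn'
  have h1 := choose_le_three n u hu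
  have h2 : ((u * D ^ 3).choose (u + ρ) : ℝ) ≤ (3 * D ^ 3) ^ (u + ρ) := by
    refine (choose_le_three _ _ (Nat.add_pos_left hu _)).trans (pow_le_pow_left₀ (by positivity) ?_ _)
    push_cast
    rw [div_le_iff₀ (by positivity)]
    have : (0 : ℝ) ≤ 3 * (D : ℝ) ^ 3 * ρ := by positivity
    nlinarith
  have h3 : (3 * n / u : ℝ) ^ u * ((3 * D ^ 3) ^ (u + ρ) * ((u : ℝ) / n) ^ (u + ρ)) =
      (9 * D ^ 3) ^ u * (3 * D ^ 3 * (u / n)) ^ ρ := by
    have : (9 * D ^ 3 : ℝ) = (3 * n / u) * (3 * D ^ 3) * (u / n) := by field_simp; norm_num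
    rw [this]
    simp only [pow_add, mul_pow]
    ring
  have h4 : (3 * D ^ 3 * (u / n) : ℝ) ≤ 1 / D ^ s := by
    rw [← mul_div_assoc, div_le_div_iff₀ hn0 (by positivity), one_mul]
    refine le_trans ?_ hn'
    have : (0 : ℝ) ≤ D ^ 3 * u * D ^ s := by positivity
    calc (3 * D ^ 3 * u * D ^ s : ℝ) = 3 * (D ^ 3 * u * D ^ s) := by ring
      _ ≤ (2 * D) * (D ^ 3 * u * D ^ s) := by gcongr; linarith
      _ = _ := by ring
  have h5 : (9 * D ^ 3 : ℝ) ≤ D ^ 4 := by
    calc (9 * D ^ 3 : ℝ) ≤ D * D ^ 3 := by gcongr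
      _ = _ := by ring
  have h6 : (1 / D ^ s : ℝ) ^ ρ ≤ 1 / D ^ (6 * u) := by
    rw [one_div_pow, ← pow_mul]
    exact one_div_le_one_div_of_le (by positivity) (pow_le_pow_right₀ (by linarith) hρ1)
  calc _ ≤ (3 * n / u : ℝ) ^ u * ((3 * D ^ 3) ^ (u + ρ) * ((u : ℝ) / n) ^ (u + ρ)) := by gcongr
    _ = _ := h3
    _ ≤ (D ^ 4) ^ u * (1 / D ^ s : ℝ) ^ ρ := by gcongr
    _ ≤ (D ^ 4) ^ u * (1 / D ^ (6 * u)) := by gcongr
    _ = (1 / D) ^ u * (1 / D) ^ u := by
        rw [← pow_mul, one_div_pow]; field_simp; ring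
    _ ≤ (1 / D) ^ 1 * (1 / 2) ^ u := by
        refine mul_le_mul (pow_le_pow_of_le_one (by positivity) ?_ hu) ?_ (by positivity)
          (by positivity)
        · rw [div_le_one (by linarith)]; linarith
        · exact pow_le_pow_left₀ (by positivity)
            (one_div_le_one_div_of_le (by norm_num) (by linarith)) _
    _ = _ := by rw [pow_one]

theorem num3 (D L : ℕ) (hD : 1 ≤ D) (hL : 6 * D ^ 4 ≤ L) :
    ((2 * D ^ L : ℕ) : ℝ) * (((2 * D ^ L * D ^ 3).choose L : ℝ) *
      ((1 : ℝ) / (2 * D ^ L : ℕ)) ^ L) ≤ 1 / 8 := by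
  have hD' : (1 : ℝ) ≤ D := by exact_mod_cast hD
  have hL4 : 6 ≤ L := le_trans (Nat.le_mul_of_pos_right _ (by positivity)) hL
  have hL' : 6 * (D : ℝ) ^ 4 ≤ L := by exact_mod_cast hL
  have hL0 : (0 : ℝ) < L := by exact_mod_cast (show 0 < L by omega)
  have h1 := choose_le_three (2 * D ^ L * D ^ 3) L (by omega)
  have h2 : (3 * ((2 * D ^ L * D ^ 3 : ℕ) : ℝ) / L) * ((1 : ℝ) / (2 * D ^ L : ℕ)) ≤ 1 / (2 * D) := by
    push_cast
    have : (3 * (2 * D ^ L * D ^ 3 : ℝ) / L) * (1 / (2 * D ^ L)) = 3 * D ^ 3 / L := by field_simp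
    rw [this, div_le_div_iff₀ hL0 (by positivity)]
    nlinarith
  have h3 : (2 : ℝ) ^ 4 ≤ 2 ^ L := pow_le_pow_right₀ (by norm_num) (by omega)
  calc _ ≤ ((2 * D ^ L : ℕ) : ℝ) * ((3 * ((2 * D ^ L * D ^ 3 : ℕ) : ℝ) / L) ^ L *
        ((1 : ℝ) / (2 * D ^ L : ℕ)) ^ L) := by gcongr
    _ ≤ ((2 * D ^ L : ℕ) : ℝ) * (1 / (2 * D)) ^ L := by
        rw [← mul_pow]; gcongr
    _ = 2 / 2 ^ L := by push_cast; rw [one_div_pow, mul_pow]; field_simp
    _ ≤ 1 / 8 := by rw [div_le_div_iff₀ (by positivity) (by norm_num)]; linarith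

theorem num4 (c d R L0 : ℕ) : ∃ L, L0 ≤ L ∧ c * (1 + d + L) ^ R ≤ 2 ^ L := by
  have h := (tendsto_pow_const_div_const_pow_of_one_lt R (r := 2) (by norm_num)).const_mul
    ((c : ℝ) * 2 ^ R)
  rw [mul_zero] at h
  obtain ⟨N, hN⟩ := Filter.eventually_atTop.1 (h.eventually (gt_mem_nhds one_pos))
  refine ⟨max (max L0 N) (1 + d), le_trans (le_max_left _ _) (le_max_left _ _), ?_⟩
  set L := max (max L0 N) (1 + d) with hL
  have h1 := hN L (le_trans (le_max_right _ _) (le_max_left _ _))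
  have h2 : 1 + d + L ≤ 2 * L := by have := le_max_right (max L0 N) (1 + d); omega
  have h3 : (c : ℝ) * (2 * L) ^ R ≤ 2 ^ L := by
    rw [← mul_div_assoc, div_lt_one (by positivity)] at h1
    rw [mul_pow, ← mul_assoc]; exact h1.le
  have h4 : c * (2 * L) ^ R ≤ 2 ^ L := by exact_mod_cast h3
  exact le_trans (Nat.mul_le_mul_left _ (Nat.pow_le_pow_left h2 _)) h4

theorem count_self {I V : Type} [Fintype I] [Fintype V] [DecidableEq I] [DecidableEq V]
    (e : I) (B : (I → V) → Finset V) (hB : ∀ ω v, B (Function.update ω e v) = B ω) (b : ℕ) :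
    (univ.filter (fun ω : I → V => (B ω).card ≤ b ∧ ω e ∈ B ω)).card * Fintype.card V ≤
      b * Fintype.card (I → V) := by
  set A := univ.filter (fun ω : I → V => (B ω).card ≤ b ∧ ω e ∈ B ω) with hA
  have h1 : (A ×ˢ (univ : Finset V)).card ≤
      ((univ : Finset (I → V)).sigma (fun ω => if (B ω).card ≤ b then B ω else ∅)).card := by
    refine card_le_card_of_injOn (fun p => ⟨Function.update p.1 e p.2, p.1 e⟩) ?_ ?_
    · rintro ⟨ω, v⟩ hp
      have h := (mem_filter.1 (mem_product.1 hp).1).2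
      simp only [coe_sigma, Set.mem_sigma_iff, coe_univ, Set.mem_univ, true_and, hB, mem_coe]
      rw [if_pos h.1]; exact h.2
    · rintro ⟨ω, v⟩ - ⟨ω', v'⟩ - h
      simp only [Sigma.mk.injEq, heq_eq_eq] at h
      obtain ⟨h1, h2⟩ := h
      have h3 := congrFun h1 e
      simp only [Function.update_self] at h3
      refine Prod.ext ?_ h3
      funext i
      by_cases hi : i = e
      · rw [hi]; exact h2
      · have := congrFun h1 i
        simpa [Function.update_of_ne hi] using this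
  rw [card_product, card_univ, card_sigma] at h1
  refine h1.trans ?_
  rw [mul_comm, ← card_univ, ← smul_eq_mul]
  refine sum_le_card_nsmul _ _ _ fun ω _ => ?_
  split_ifs with h
  · exact h
  · simp

/-- Balls in the graph with one edge removed. -/
def ball {V J : Type} [Fintype V] [Fintype J] [DecidableEq V] [DecidableEq J]
    (ω : V × J → V) (e : V × J) : ℕ → Finset V
  | 0 => {e.1}
  | k + 1 => ball ω e k ∪ (univ.filter (fun e' => e' ≠ e ∧ e'.1 ∈ ball ω e k)).image ω ∪
      (univ.filter (fun e' => e' ≠ e ∧ ω e' ∈ ball ω e k)).image Prod.fst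

section
variable {V J : Type} [Fintype V] [Fintype J] [DecidableEq V] [DecidableEq J]

theorem ball_update (ω : V × J → V) (e : V × J) (v : V) (k : ℕ) :
    ball (Function.update ω e v) e k = ball ω e k := by
  induction k with
  | zero => rfl
  | succ k ih =>
    simp only [ball, ih]
    congr 2
    · refine image_congr fun e' he' => ?_
      exact Function.update_of_ne (mem_filter.1 he').2.1 _ _
    · refine filter_congr fun e' _ => ?_
      constructor
      · rintro ⟨h1, h2⟩; exact ⟨h1, by rwa [Function.update_of_ne h1] at h2⟩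
      · rintro ⟨h1, h2⟩; exact ⟨h1, by rwa [Function.update_of_ne h1]⟩

theorem ball_mono (ω : V × J → V) (e : V × J) : Monotone (ball ω e) :=
  monotone_nat_of_le_succ fun _ => subset_union_left.trans subset_union_left

theorem ball_card (ω : V × J → V) (e : V × J) (L : ℕ)
    (hL : ∀ v, (univ.filter (fun i => ω i ∈ ({v} : Finset V))).card ≤ L) (k : ℕ) :
    (ball ω e k).card ≤ (1 + Fintype.card J + L) ^ k := by
  induction k with
  | zero => simp [ball]
  | succ k ih =>
    have h1 : (univ.filter (fun e' => e' ≠ e ∧ e'.1 ∈ ball ω e k)).card ≤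
        (ball ω e k).card * Fintype.card J := by
      rw [← card_univ, ← card_product]
      refine card_le_card fun e' he' => mem_product.2 ⟨(mem_filter.1 he').2.2, mem_univ _⟩
    have h2 : (univ.filter (fun e' => e' ≠ e ∧ ω e' ∈ ball ω e k)).card ≤
        (ball ω e k).card * L := by
      refine le_trans (card_le_card (t := (ball ω e k).biUnion
        (fun v => univ.filter (fun i => ω i ∈ ({v} : Finset V)))) ?_) ?_
      · intro e' he'
        exact mem_biUnion.2 ⟨ω e', (mem_filter.1 he').2.2, by simp⟩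
      · exact card_biUnion_le_card_mul _ _ _ fun v _ => hL v
    simp only [ball]
    refine (card_union_le _ _).trans ((add_le_add (card_union_le _ _) card_image_le).trans ?_)
    refine (add_le_add (add_le_add le_rfl (card_image_le.trans h1)) h2).trans ?_
    rw [pow_succ]
    calc _ = (ball ω e k).card * (1 + Fintype.card J + L) := by ring
      _ ≤ _ := Nat.mul_le_mul_right _ ih

theorem exists_pot (ω : V × J → V) (e : V × J) (R : ℕ) (h : ω e ∉ ball ω e R) :
    ∃ f : V → ℝ, (∀ v, |f v| ≤ R) ∧ (∀ e', e' ≠ e → |f e'.1 - f (ω e')| ≤ 1) ∧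
      f (ω e) - f e.1 = R := by
  let g : V → ℕ := fun v => ((range R).filter (fun k => v ∉ ball ω e k)).card
  have key : ∀ x y, (∀ k, x ∈ ball ω e k → y ∈ ball ω e (k + 1)) → g y ≤ g x + 1 := by
    intro x y hxy
    refine le_trans (card_le_card (t := insert 0
      (((range R).filter (fun k => x ∉ ball ω e k)).image Nat.succ)) ?_) ?_
    · intro k hk
      rcases k with _ | k
      · exact mem_insert_self _ _
      · obtain ⟨h1, h2⟩ := mem_filter.1 hk
        refine mem_insert_of_mem (mem_image.2 ⟨k, mem_filter.2 ⟨?_, fun h3 => h2 (hxy k h3)⟩, rfl⟩)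
        rw [mem_range] at h1 ⊢; omega
    · exact (card_insert_le _ _).trans (Nat.succ_le_succ card_image_le)
  refine ⟨fun v => g v, fun v => ?_, fun e' he' => ?_, ?_⟩
  · rw [abs_of_nonneg (Nat.cast_nonneg _)]
    have : g v ≤ R := (card_filter_le _ _).trans (card_range R).le
    show (g v : ℝ) ≤ R
    exact_mod_cast this
  · have h1 : g (ω e') ≤ g e'.1 + 1 := key _ _ fun k hk =>
      mem_union_left _ (mem_union_right _ (mem_image.2 ⟨e', by simp [he', hk], rfl⟩))
    have h2 : g e'.1 ≤ g (ω e') + 1 := key _ _ fun k hk =>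
      mem_union_right _ (mem_image.2 ⟨e', by simp [he', hk], rfl⟩)
    have h3 : (g (ω e') : ℝ) ≤ g e'.1 + 1 := by exact_mod_cast h1
    have h4 : (g e'.1 : ℝ) ≤ g (ω e') + 1 := by exact_mod_cast h2
    rw [abs_le]; constructor <;> linarith
  · have h1 : g (ω e) = R := by
      simp only [g]
      rw [filter_true_of_mem, card_range]
      intro k hk h2
      exact h (ball_mono ω e (mem_range.1 hk).le h2)
    have h2 : g e.1 = 0 := by
      simp only [g]
      rw [filter_false_of_mem, card_empty]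
      intro k _ h2
      exact h2 (ball_mono ω e (Nat.zero_le k) (by simp [ball]))
    simp [h1, h2]

end

end Pool.Agent.H787Z.LF
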