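import Pool.Agent.H787Z.LF.Lift

set_option autoImplicit false

namespace Pool.Agent.H787Z.LF

open Finset

/-- A finite digraph with constant out-degree, and the length of the edges to an apex. -/
structure Gr where
  n : ℕ
  d : ℕ
  ω : Fin n × Fin d → Fin n
  R : ℕ
  hR : 1 ≤ R

namespace Gr

variable (G : Gr)

abbrev V : Type := Fin G.n
abbrev Ed : Type := Fin G.n × Fin G.d
abbrev I : Type := G.Ed ⊕ G.V
abbrev W : Type := PiLp 1 (fun _ : G.I => ℝ)

def src (e : G.Ed) : G.V := e.1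
def tgt (e : G.Ed) : G.V := G.ω e

noncomputable def grad {Y : Type*} [AddCommGroup Y] [Module ℝ Y] (f : G.V → Y) : G.I → Y :=
  Sum.elim (fun e => f (G.src e) - f (G.tgt e)) (fun v => (G.R : ℝ)⁻¹ • f v)

noncomputable def opL {Y : Type*} [AddCommGroup Y] [Module ℝ Y] (f : G.V → Y) : G.W →ₗ[ℝ] Y where
  toFun w := ∑ i, w i • G.grad f i
  map_add' w w' := by simp [add_smul, sum_add_distrib]
  map_smul' c w := by simp [mul_smul, smul_sum]

theorem opL_apply {Y : Type*} [AddCommGroup Y] [Module ℝ Y] (f : G.V → Y) (w : G.W) :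
    G.opL f w = ∑ i, w i • G.grad f i := rfl

noncomputable def div : G.W →ₗ[ℝ] (G.V → ℝ) := G.opL (fun v => Pi.single v 1)

theorem grad_eq {Y : Type*} [AddCommGroup Y] [Module ℝ Y] (f : G.V → Y) (i : G.I) :
    G.grad f i = ∑ v, (G.grad (fun v => (Pi.single v 1 : G.V → ℝ)) i v) • f v := by
  rcases i with e | u
  · simp [grad, sub_smul, sum_sub_distrib, Pi.single_apply]
  · simp [grad, Pi.single_apply]

theorem opL_eq {Y : Type*} [AddCommGroup Y] [Module ℝ Y] (f : G.V → Y) (w : G.W) :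
    G.opL f w = ∑ v, G.div w v • f v := by
  simp only [div, opL_apply, Finset.sum_apply, Pi.smul_apply, smul_eq_mul, sum_smul]
  rw [sum_comm]
  refine sum_congr rfl fun i _ => ?_
  rw [grad_eq, smul_sum]
  simp only [mul_smul]

noncomputable def Z : Submodule ℝ G.W := LinearMap.ker G.div

instance : IsClosed (G.Z : Set G.W) := G.Z.closed_of_finiteDimensional

def E : Type := G.W ⧸ G.Z

noncomputable instance : NormedAddCommGroup G.E :=
  inferInstanceAs (NormedAddCommGroup (G.W ⧸ G.Z))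

noncomputable instance : NormedSpace ℝ G.E := inferInstanceAs (NormedSpace ℝ (G.W ⧸ G.Z))

instance : FiniteDimensional ℝ G.E := inferInstanceAs (FiniteDimensional ℝ (G.W ⧸ G.Z))

instance : CompleteSpace G.E := FiniteDimensional.complete ℝ G.E

noncomputable def πL : G.W →ₗ[ℝ] G.E := G.Z.mkQ

noncomputable def π : G.W →L[ℝ] G.E := LinearMap.toContinuousLinearMap G.πL

theorem exists_π_lt (y : G.E) {ε : ℝ} (hε : 0 < ε) : ∃ w, G.π w = y ∧ ‖w‖ < ‖y‖ + ε :=
  Submodule.Quotient.norm_mk_lt (S := G.Z) y hε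

noncomputable def liftL {Y : Type*} [AddCommGroup Y] [Module ℝ Y] (u : G.W →ₗ[ℝ] Y)
    (h : G.Z ≤ LinearMap.ker u) : G.E →ₗ[ℝ] Y := G.Z.liftQ u h

theorem liftL_π {Y : Type*} [AddCommGroup Y] [Module ℝ Y] (u : G.W →ₗ[ℝ] Y)
    (h : G.Z ≤ LinearMap.ker u) (w : G.W) : G.liftL u h (G.π w) = u w := rfl

noncomputable def bas (i : G.I) : G.W := PiLp.single 1 i 1

theorem norm_bas (i : G.I) : ‖G.bas i‖ = 1 := by
  simp [bas]

theorem opL_bas {Y : Type*} [AddCommGroup Y] [Module ℝ Y] (f : G.V → Y) (i : G.I) :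
    G.opL f (G.bas i) = G.grad f i := by
  simp [opL_apply, bas, PiLp.single_apply]

noncomputable def δ (v : G.V) : G.E := G.π ((G.R : ℝ) • G.bas (Sum.inr v))

theorem R_pos : (0 : ℝ) < G.R := by exact_mod_cast G.hR

theorem norm_π_le (w : G.W) : ‖G.π w‖ ≤ ‖w‖ := Submodule.Quotient.norm_mk_le G.Z w

theorem exists_π (y : G.E) : ∃ w, G.π w = y ∧ ‖w‖ ≤ 2 * ‖y‖ := by
  by_cases hy : y = 0
  · exact ⟨0, by simp [hy], by simp⟩
  · obtain ⟨w, h1, h2⟩ := G.exists_π_lt y (norm_pos_iff.2 hy)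
    exact ⟨w, h1, by linarith⟩

theorem π_eq_iff (w w' : G.W) : G.π w = G.π w' ↔ G.div w = G.div w' := by
  show G.Z.mkQ w = G.Z.mkQ w' ↔ _
  simp only [Submodule.mkQ_apply]
  rw [Submodule.Quotient.eq, Z, LinearMap.mem_ker, map_sub, sub_eq_zero]

theorem opL_apex {Y : Type*} [AddCommGroup Y] [Module ℝ Y] (f : G.V → Y) (v : G.V) :
    G.opL f ((G.R : ℝ) • G.bas (Sum.inr v)) = f v := by
  rw [map_smul, opL_bas]
  simp [grad, smul_smul, G.R_pos.ne']

theorem π_eq_sum (w : G.W) : G.π w = ∑ v, G.div w v • G.δ v := by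
  simp only [δ, ← map_smul, ← map_sum]
  rw [π_eq_iff, map_sum]
  have h : ∀ v, G.div (G.div w v • (G.R : ℝ) • G.bas (Sum.inr v)) = G.div w v • Pi.single v 1 :=
    fun v => by rw [map_smul]; congr 1; exact G.opL_apex _ v
  simp only [h]
  ext u
  simp [Finset.sum_apply, Pi.single_apply]

theorem π_eq_opL (w : G.W) : G.π w = G.opL G.δ w := by rw [π_eq_sum, opL_eq]

theorem norm_δ_le (v : G.V) : ‖G.δ v‖ ≤ G.R := by
  refine (G.norm_π_le _).trans ?_
  rw [norm_smul, norm_bas, Real.norm_of_nonneg G.R_pos.le, mul_one]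

theorem norm_δ_sub_le (e : G.Ed) : ‖G.δ (G.src e) - G.δ (G.tgt e)‖ ≤ 1 := by
  have : G.π (G.bas (Sum.inl e)) = G.δ (G.src e) - G.δ (G.tgt e) := by
    rw [π_eq_opL, opL_bas]; rfl
  rw [← this]
  exact (G.norm_π_le _).trans (G.norm_bas _).le

theorem δ_ne_zero (v : G.V) : G.δ v ≠ 0 := by
  intro h
  have h1 : G.π ((G.R : ℝ) • G.bas (Sum.inr v)) = G.π 0 := by rw [map_zero]; exact h
  rw [π_eq_iff, div, opL_apex, map_zero] at h1
  simpa using congrFun h1 v

/-- The universal property. -/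
theorem exists_op {Y : Type*} [NormedAddCommGroup Y] [NormedSpace ℝ Y] (f : G.V → Y) (C : ℝ)
    (hC : 0 ≤ C) (h1 : ∀ e, ‖f (G.src e) - f (G.tgt e)‖ ≤ C) (h2 : ∀ v, ‖f v‖ ≤ C * G.R) :
    ∃ u : G.E →L[ℝ] Y, ‖u‖ ≤ C ∧ ∀ v, u (G.δ v) = f v := by
  have hg : ∀ i, ‖G.grad f i‖ ≤ C := by
    rintro (e | v)
    · exact h1 e
    · simp only [grad, Sum.elim_inr]
      rw [norm_smul, Real.norm_of_nonneg (inv_nonneg.2 G.R_pos.le), inv_mul_le_iff₀ G.R_pos,
        mul_comm]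
      exact h2 v
  have hb : ∀ w, ‖G.opL f w‖ ≤ C * ‖w‖ := by
    intro w
    rw [opL_apply, PiLp.norm_eq_of_L1, mul_sum]
    refine (norm_sum_le _ _).trans (sum_le_sum fun i _ => ?_)
    rw [norm_smul, mul_comm]
    exact mul_le_mul_of_nonneg_right (hg i) (norm_nonneg _)
  have hk : G.Z ≤ LinearMap.ker (G.opL f) := by
    intro w hw
    rw [LinearMap.mem_ker, opL_eq]
    have : G.div w = 0 := hw
    simp [this]
  have hb' : ∀ y : G.E, ‖G.liftL (G.opL f) hk y‖ ≤ C * ‖y‖ := by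
    intro y
    refine le_of_forall_pos_le_add fun ε hε => ?_
    obtain ⟨w, rfl, hw⟩ := G.exists_π_lt y (ε := ε / (C + 1)) (by positivity)
    rw [liftL_π]
    refine (hb w).trans ?_
    have h3 : C * (ε / (C + 1)) ≤ ε := by
      rw [← mul_div_assoc, div_le_iff₀ (by positivity)]; nlinarith
    nlinarith
  refine ⟨(G.liftL (G.opL f) hk).mkContinuous C hb', LinearMap.mkContinuous_norm_le _ hC _,
    fun v => ?_⟩
  exact G.opL_apex f v

theorem ext_δ {Y : Type*} [NormedAddCommGroup Y] [NormedSpace ℝ Y] (u u' : G.E →L[ℝ] Y)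
    (h : ∀ v, u (G.δ v) = u' (G.δ v)) : u = u' := by
  ext y
  obtain ⟨w, rfl, -⟩ := G.exists_π y
  simp only [π_eq_sum, map_sum, map_smul, h]

theorem exists_section : ∃ σ : G.E →L[ℝ] G.W, ∀ y, G.π (σ y) = y := by
  obtain ⟨u, -, hu⟩ := G.exists_op (fun v => (G.R : ℝ) • G.bas (Sum.inr v)) (2 * G.R)
    (by linarith [G.R_pos])
    (fun e => (norm_sub_le _ _).trans (by
      rw [norm_smul, norm_smul, norm_bas, norm_bas, Real.norm_of_nonneg G.R_pos.le]; linarith))
    (fun v => by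
      rw [norm_smul, norm_bas, Real.norm_of_nonneg G.R_pos.le]
      have : (1 : ℝ) ≤ G.R := by exact_mod_cast G.hR
      nlinarith)
  have := G.ext_δ (G.π.comp u) (ContinuousLinearMap.id ℝ _) (fun v => by
    simp only [ContinuousLinearMap.comp_apply, hu]; rfl)
  exact ⟨u, fun y => congrArg (fun T : G.E →L[ℝ] G.E => T y) this⟩

/-- Lower bound for the norm of a linear section. -/
theorem section_lower {K : ℕ} (hG : Good G.src G.tgt G.R K) (S : G.E →L[ℝ] G.W)
    (hS : ∀ y, G.π (S y) = y) : (G.R : ℝ) / 2 - 1 ≤ ‖S‖ := by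
  classical
  obtain ⟨bad, hbad, hgood⟩ := hG.girth
  have hmany := hG.many
  have hpos := hG.pos
  set n := Fintype.card G.V with hn
  set s := ‖S‖ with hs
  have hs0 : 0 ≤ s := norm_nonneg _
  let a : G.I → ℝ := fun i => S (G.π (G.bas i)) i
  have hdiv : ∀ v, G.div (S (G.δ v)) = Pi.single v 1 := by
    intro v
    have h1 : G.π (S (G.δ v)) = G.π ((G.R : ℝ) • G.bas (Sum.inr v)) := hS _
    rw [π_eq_iff] at h1
    rw [h1, div, opL_apex]
  have htr : ∑ i, a i = n := by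
    have h1 : ∀ i, a i = ∑ v, G.div (G.bas i) v * S (G.δ v) i := by
      intro i
      simp only [a, π_eq_sum, map_sum, map_smul]
      simp
    simp only [h1]
    rw [sum_comm]
    have h2 : ∀ v, ∑ i, G.div (G.bas i) v * S (G.δ v) i = 1 := by
      intro v
      have h3 := congrFun (hdiv v) v
      rw [div, opL_apply] at h3
      simp only [Finset.sum_apply, Pi.smul_apply, smul_eq_mul, Pi.single_eq_same] at h3
      rw [← h3]
      refine sum_congr rfl fun i _ => ?_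
      rw [div, opL_bas, mul_comm]
    simp [h2, hn]
  have hSn : ∀ i, ‖S (G.π (G.bas i))‖ ≤ s := fun i => by
    refine (S.le_opNorm _).trans ?_
    have := (G.norm_π_le (G.bas i)).trans (G.norm_bas i).le
    nlinarith
  have ha1 : ∀ i, -s ≤ a i := fun i => by
    have h1 := (PiLp.norm_apply_le (S (G.π (G.bas i))) i).trans (hSn i)
    rw [Real.norm_eq_abs] at h1
    exact (abs_le.1 h1).1
  have ha2 : ∀ e ∉ bad, 1 - (1 + s) / G.R ≤ a (Sum.inl e) := by
    intro e he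
    obtain ⟨f, hf1, hf2, hf3⟩ := hgood e he
    set z := G.bas (Sum.inl e) - S (G.π (G.bas (Sum.inl e))) with hz
    have hz0 : G.div z = 0 := by
      rw [hz, map_sub, sub_eq_zero, ← π_eq_iff, hS]
    have hz1 : ‖z‖ ≤ 1 + s := (norm_sub_le _ _).trans (by rw [norm_bas]; linarith [hSn (Sum.inl e)])
    have hz2 : z (Sum.inl e) = 1 - a (Sum.inl e) := by simp [hz, a, bas]
    have h0 : G.opL f z = 0 := by rw [opL_eq, hz0]; simp
    rw [opL_apply, ← add_sum_erase _ _ (mem_univ (Sum.inl e))] at h0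
    have hg : G.grad f (Sum.inl e) = -(G.R : ℝ) := by simp only [grad, Sum.elim_inl]; linarith
    have hb : ∑ i ∈ univ.erase (Sum.inl e), z i • G.grad f i ≤ ‖z‖ := by
      rw [PiLp.norm_eq_of_L1]
      refine le_trans (sum_le_sum fun i hi => ?_)
        (sum_le_sum_of_subset_of_nonneg (erase_subset (Sum.inl e) univ)
          (fun _ _ _ => norm_nonneg _))
      have hgi : |G.grad f i| ≤ 1 := by
        rcases i with e' | v
        · exact hf2 e' (fun h => (mem_erase.1 hi).1 (by rw [h]))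
        · simp only [grad, Sum.elim_inr, smul_eq_mul]
          rw [abs_mul, abs_of_pos (inv_pos.2 G.R_pos), inv_mul_le_iff₀ G.R_pos, mul_one]
          exact hf1 v
      rw [smul_eq_mul, Real.norm_eq_abs]
      refine (le_abs_self _).trans ?_
      rw [abs_mul]
      exact mul_le_of_le_one_right (abs_nonneg _) hgi
    rw [hg, hz2, smul_eq_mul] at h0
    have : 1 - a (Sum.inl e) ≤ (1 + s) / G.R := by
      rw [le_div_iff₀ G.R_pos]; linarith
    linarith
  by_contra hcon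
  have hlt : 1 + s < G.R / 2 := by linarith
  have hhalf : (1 + s) / G.R ≤ 1 / 2 := by
    rw [div_le_iff₀ G.R_pos]; linarith
  have hsum : ∑ i, a i = ∑ e ∈ univ \ bad, a (Sum.inl e) + ∑ e ∈ bad, a (Sum.inl e) +
      ∑ v, a (Sum.inr v) := by
    rw [Fintype.sum_sum_type, sum_sdiff (subset_univ bad)]
  have b1 : ((univ \ bad).card : ℝ) * (1 / 2) ≤ ∑ e ∈ univ \ bad, a (Sum.inl e) := by
    rw [← nsmul_eq_mul]
    refine card_nsmul_le_sum _ _ _ fun e he => ?_
    linarith [ha2 e (mem_sdiff.1 he).2]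
  have b2 : (bad.card : ℝ) * (-s) ≤ ∑ e ∈ bad, a (Sum.inl e) := by
    rw [← nsmul_eq_mul]
    exact card_nsmul_le_sum _ _ _ fun e _ => ha1 _
  have b3 : (n : ℝ) * (-s) ≤ ∑ v, a (Sum.inr v) := by
    rw [← nsmul_eq_mul, hn, ← card_univ]
    exact card_nsmul_le_sum _ _ _ fun e _ => ha1 _
  have c1 : (2 * G.R + 2) * n ≤ (univ \ bad).card := by
    rw [card_univ_sdiff]
    have : (2 * G.R + 3) * n = (2 * G.R + 2) * n + n := by ring
    omega
  have c2 : ((2 * G.R + 2) * n : ℝ) ≤ (univ \ bad).card := by exact_mod_cast c1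
  have c3 : (bad.card : ℝ) ≤ n := by exact_mod_cast hbad
  have c4 : (0 : ℝ) < n := by exact_mod_cast hpos
  have c5 := mul_le_mul_of_nonneg_right c3 hs0
  nlinarith

/-- Operators from a good graph space lift. -/
theorem op_lift {K : ℕ} (hG : Good G.src G.tgt G.R K) (H : Gr) (C : Finset H.E) (hC : C.card ≤ K)
    (hcov : ∀ y : H.E, ‖y‖ ≤ G.R → ∃ q ∈ C, ‖y - q‖ ≤ 1) (u : G.E →L[ℝ] H.E) (a : ℝ) (ha : 0 < a)
    (hu : ‖u‖ ≤ a) : ∃ Λ : G.E →L[ℝ] H.W, ‖Λ‖ ≤ 200 * a ∧ ∀ y, H.π (Λ y) = u y := by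
  have hb : ∀ y, ‖a⁻¹ • u y‖ ≤ ‖y‖ := fun y => by
    rw [norm_smul, Real.norm_of_nonneg (inv_pos.2 ha).le, inv_mul_le_iff₀ ha]
    exact u.le_of_opNorm_le hu y
  obtain ⟨Ψ, h1, h2, h3⟩ := hG.lift G.hR H.π H.exists_π C hC hcov (fun v => a⁻¹ • u (G.δ v))
    (fun v => (hb _).trans (G.norm_δ_le v))
    (fun e => by rw [← smul_sub, ← map_sub]; exact (hb _).trans (G.norm_δ_sub_le e))
  obtain ⟨Λ, hΛ1, hΛ2⟩ := G.exists_op Ψ 200 (by norm_num) h3 h2
  refine ⟨a • Λ, ?_, ?_⟩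
  · rw [norm_smul, Real.norm_of_nonneg ha.le]; nlinarith
  · have := G.ext_δ (H.π.comp (a • Λ)) u (fun v => by
      simp only [ContinuousLinearMap.comp_apply, smul_apply, map_smul, hΛ2, h1]
      rw [smul_smul, mul_inv_cancel₀ ha.ne', one_smul])
    exact fun y => congrArg (fun T : G.E →L[ℝ] H.E => T y) this

theorem exists_cover (r : ℕ) : ∃ C : Finset G.E, ∀ y : G.E, ‖y‖ ≤ r → ∃ q ∈ C, ‖y - q‖ ≤ 1 := by
  have : ProperSpace G.E := FiniteDimensional.proper ℝ G.E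
  obtain ⟨t, -, ht, hc⟩ := (isCompact_closedBall (0 : G.E) r).finite_cover_balls one_pos
  refine ⟨ht.toFinset, fun y hy => ?_⟩
  have := hc (mem_closedBall_zero_iff.2 hy)
  simp only [Set.mem_iUnion, Metric.mem_ball, dist_eq_norm] at this
  obtain ⟨q, hq, h⟩ := this
  exact ⟨q, ht.mem_toFinset.2 hq, h.le⟩

end Gr

end Pool.Agent.H787Z.LF
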