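import Pool.Agent.H787Z.LF.Count
import Pool.Agent.H787Z.LF.Space

set_option autoImplicit false

namespace Pool.Agent.H787Z.LF

open Finset

theorem card_bi {ι α : Type*} [DecidableEq α] (s : Finset ι) (t : ι → Finset α) (c : ι → ℝ)
    (h : ∀ i ∈ s, ((t i).card : ℝ) ≤ c i) : ((s.biUnion t).card : ℝ) ≤ ∑ i ∈ s, c i := by
  refine le_trans ?_ (sum_le_sum h)
  exact_mod_cast card_biUnion_le

theorem card_bi' {ι α : Type*} [DecidableEq α] (s : Finset ι) (t : ι → Finset α) (c : ℝ)
    (h : ∀ i ∈ s, ((t i).card : ℝ) ≤ c) : ((s.biUnion t).card : ℝ) ≤ s.card * c := by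
  simpa using card_bi s t (fun _ => c) h

section
variable {V J : Type} [Fintype V] [Fintype J] [DecidableEq V] [DecidableEq J]

def B1 (V J : Type) [Fintype V] [Fintype J] [DecidableEq V] [DecidableEq J] (a b : ℕ) :
    Finset (V × J → V) :=
  (powersetCard a (univ : Finset V)).biUnion fun S =>
    (powersetCard b (univ : Finset V)).biUnion fun T =>
      univ.filter (fun ω => a * Fintype.card J ≤ ((S ×ˢ univ).filter (fun i => ω i ∈ T)).card)

def B2 (V J : Type) [Fintype V] [Fintype J] [DecidableEq V] [DecidableEq J] (u r : ℕ) :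
    Finset (V × J → V) :=
  (powersetCard u (univ : Finset V)).biUnion fun S =>
    univ.filter (fun ω => r ≤ ((S ×ˢ univ).filter (fun i => ω i ∈ S)).card)

def B3 (V J : Type) [Fintype V] [Fintype J] [DecidableEq V] [DecidableEq J] (L : ℕ) :
    Finset (V × J → V) :=
  (univ : Finset V).biUnion fun v =>
    univ.filter (fun ω => L ≤ (univ.filter (fun i => ω i ∈ ({v} : Finset V))).card)

def B4 (V J : Type) [Fintype V] [Fintype J] [DecidableEq V] [DecidableEq J] (R b : ℕ) :
    Finset (V × J → V) :=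
  univ.filter (fun ω => Fintype.card V ≤
    (univ.filter (fun e => (ball ω e R).card ≤ b ∧ ω e ∈ ball ω e R)).card)

theorem card_B1 (hV : 0 < Fintype.card V) (a b : ℕ) (hb : 2 * b ≤ Fintype.card V) :
    ((B1 V J a b).card : ℝ) ≤ ((Fintype.card V).choose a : ℝ) * ((Fintype.card V).choose b : ℝ) *
      (1 / 2) ^ (a * Fintype.card J) * Fintype.card (V × J → V) := by
  have hV' : (0 : ℝ) < Fintype.card V := by exact_mod_cast hV
  have hb' : 2 * (b : ℝ) ≤ Fintype.card V := by exact_mod_cast hb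
  refine (card_bi' _ _ (((Fintype.card V).choose b : ℝ) *
    ((1 / 2) ^ (a * Fintype.card J) * Fintype.card (V × J → V))) fun S hS => ?_).trans ?_
  · refine (card_bi' _ _ ((1 / 2) ^ (a * Fintype.card J) * Fintype.card (V × J → V))
      fun T hT => ?_).trans ?_
    · refine (count_hits hV _ _ _).trans ?_
      rw [card_product, (mem_powersetCard.1 hS).2, (mem_powersetCard.1 hT).2, card_univ,
        Nat.choose_self, Nat.cast_one, one_mul]
      refine mul_le_mul_of_nonneg_right (pow_le_pow_left₀ (by positivity) ?_ _) (by positivity)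
      rw [div_le_div_iff₀ hV' (by norm_num)]; linarith
    · rw [card_powersetCard, card_univ]
  · rw [card_powersetCard, card_univ]; apply le_of_eq; ring

theorem card_B2 (hV : 0 < Fintype.card V) (u r : ℕ) :
    ((B2 V J u r).card : ℝ) ≤ ((Fintype.card V).choose u : ℝ) *
      (((u * Fintype.card J).choose r : ℝ) * ((u : ℝ) / Fintype.card V) ^ r) *
        Fintype.card (V × J → V) := by
  refine (card_bi' _ _ ((((u * Fintype.card J).choose r : ℝ) * ((u : ℝ) / Fintype.card V) ^ r) *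
        Fintype.card (V × J → V)) fun S hS => ?_).trans ?_
  · refine (count_hits hV _ _ _).trans ?_
    rw [card_product, (mem_powersetCard.1 hS).2, card_univ]
  · rw [card_powersetCard, card_univ, mul_assoc ((Fintype.card V).choose u : ℝ)]

theorem card_B3 (hV : 0 < Fintype.card V) (L : ℕ) :
    ((B3 V J L).card : ℝ) ≤ (Fintype.card V : ℝ) *
      (((Fintype.card V * Fintype.card J).choose L : ℝ) * ((1 : ℝ) / Fintype.card V) ^ L) *
        Fintype.card (V × J → V) := by
  refine (card_bi' _ _ ((((Fintype.card V * Fintype.card J).choose L : ℝ) *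
    ((1 : ℝ) / Fintype.card V) ^ L) * Fintype.card (V × J → V)) fun v _ => ?_).trans ?_
  · refine (count_hits hV _ _ _).trans ?_
    rw [card_univ, Fintype.card_prod, card_singleton, Nat.cast_one]
  · rw [card_univ, mul_assoc (Fintype.card V : ℝ)]

theorem card_B4 (hV : 0 < Fintype.card V) (R b : ℕ) :
    (B4 V J R b).card * Fintype.card V ≤ Fintype.card J * b * Fintype.card (V × J → V) := by
  have h1 : (B4 V J R b).card * Fintype.card V ≤
      ∑ ω : V × J → V, (univ.filter (fun e => (ball ω e R).card ≤ b ∧ ω e ∈ ball ω e R)).card := by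
    refine le_trans ?_ (sum_le_sum_of_subset (subset_univ (B4 V J R b)))
    rw [← smul_eq_mul]
    exact card_nsmul_le_sum _ _ _ fun ω hω => (mem_filter.1 hω).2
  have h2 : ∑ ω : V × J → V,
      (univ.filter (fun e => (ball ω e R).card ≤ b ∧ ω e ∈ ball ω e R)).card =
      ∑ e : V × J, (univ.filter
        (fun ω : V × J → V => (ball ω e R).card ≤ b ∧ ω e ∈ ball ω e R)).card := by
    simp only [card_filter]
    exact sum_comm
  have h3 : (∑ e : V × J, (univ.filter
        (fun ω : V × J → V => (ball ω e R).card ≤ b ∧ ω e ∈ ball ω e R)).card) * Fintype.card V ≤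
      Fintype.card (V × J) * (b * Fintype.card (V × J → V)) := by
    rw [sum_mul, ← card_univ (α := V × J), ← smul_eq_mul (univ : Finset (V × J)).card]
    exact sum_le_card_nsmul _ _ _ fun e _ =>
      count_self e (fun ω => ball ω e R) (fun ω v => ball_update ω e v R) b
  rw [← h2, Fintype.card_prod] at h3
  refine Nat.le_of_mul_le_mul_right ?_ hV
  calc _ ≤ _ := Nat.mul_le_mul_right _ h1
    _ ≤ _ := h3
    _ = _ := by ring

theorem not_B1 {a b : ℕ} {ω : V × J → V} (h : ω ∉ B1 V J a b) (hb : b ≤ Fintype.card V)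
    (S T : Finset V) (hS : a ≤ S.card) (hT : T.card ≤ b) : ∃ e : V × J, e.1 ∈ S ∧ ω e ∉ T := by
  by_contra hcon
  push Not at hcon
  obtain ⟨S', h1, h2⟩ := exists_subset_card_eq hS
  obtain ⟨T', h3, h4⟩ := exists_superset_card_eq hT hb
  refine h (mem_biUnion.2 ⟨S', mem_powersetCard.2 ⟨subset_univ _, h2⟩, mem_biUnion.2
    ⟨T', mem_powersetCard.2 ⟨subset_univ _, h4⟩, mem_filter.2 ⟨mem_univ _, ?_⟩⟩⟩)
  rw [filter_true_of_mem, card_product, h2, card_univ]
  intro e he
  exact h3 (hcon e (h1 (mem_product.1 he).1))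

theorem not_B2 {r : ℕ} {ω : V × J → V} (S : Finset V) (h : ω ∉ B2 V J S.card r) :
    (univ.filter (fun e : V × J => e.1 ∈ S ∧ ω e ∈ S)).card < r := by
  by_contra hcon
  refine h (mem_biUnion.2 ⟨S, mem_powersetCard.2 ⟨subset_univ _, rfl⟩,
    mem_filter.2 ⟨mem_univ _, (not_lt.1 hcon).trans (card_le_card ?_)⟩⟩)
  intro e he
  simp only [mem_filter, mem_univ, true_and, mem_product, and_true] at he ⊢
  exact he

end

theorem exists_good (R K : ℕ) (hR : 1 ≤ R) : ∃ G : Gr, G.R = R ∧ Good G.src G.tgt G.R K := by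
  classical
  obtain ⟨D, hDK, hDR⟩ : ∃ D, K ≤ D ∧ 32 * R + 40 ≤ D := ⟨K + (32 * R + 40), by omega, by omega⟩
  obtain ⟨L, hL, hL2⟩ := num4 (8 * D ^ 3) (D ^ 3) R (6 * D ^ 4 + 2 * R + 4)
  set n := 2 * D ^ L with hn
  have hD0 : 0 < D := by omega
  have hn0 : 0 < n := by positivity
  have hV : 0 < Fintype.card (Fin n) := by simpa using hn0
  have hD' : (32 * R + 40 : ℝ) ≤ D := by exact_mod_cast hDR
  have hR' : (1 : ℝ) ≤ R := by exact_mod_cast hR
  set N : ℝ := ((Fintype.card (Fin n × Fin (D ^ 3) → Fin n) : ℕ) : ℝ) with hN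
  have hN0 : 0 < N := by
    have : Nonempty (Fin n) := ⟨⟨0, hn0⟩⟩
    rw [hN]; exact_mod_cast Fintype.card_pos
  let m : ℕ → ℕ := fun s => D ^ (L - s)
  have hm1 : ∀ s, s + 1 ≤ L → m s = D * m (s + 1) := fun s hs => by
    simp only [m]
    rw [← pow_succ']; congr 1; omega
  have hm2 : ∀ s, s ≤ L → n = 2 * D ^ s * m s := fun s hs => by
    simp only [m]
    rw [mul_assoc, ← pow_add, hn]; congr 2; omega
  have hm3 : ∀ s, 2 * m s ≤ n := fun s =>
    Nat.mul_le_mul_left _ (Nat.pow_le_pow_right hD0 (Nat.sub_le _ _))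
  let A1 := (range (2 * R + 4)).biUnion fun s => B1 (Fin n) (Fin (D ^ 3)) (m (s + 1)) (m s)
  let A2 := (Icc 1 (2 * R)).biUnion fun s => (Icc 1 (m (s + 4))).biUnion fun u =>
    B2 (Fin n) (Fin (D ^ 3)) u (u + (6 * u / s + 1))
  let A3 := B3 (Fin n) (Fin (D ^ 3)) L
  let A4 := B4 (Fin n) (Fin (D ^ 3)) R ((1 + D ^ 3 + L) ^ R)
  have c1 : (A1.card : ℝ) ≤ 1 / 8 * N := by
    refine (card_bi' _ _ (1 / D * N) fun s hs => ?_).trans ?_
    · have hs' := mem_range.1 hs
      refine (card_B1 hV _ _ (by simpa using hm3 s)).trans ?_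
      refine mul_le_mul_of_nonneg_right ?_ hN0.le
      simp only [Fintype.card_fin]
      have := num1 D s (m (s + 1)) (by omega) (by omega) (Nat.one_le_pow _ _ hD0)
      rwa [← hm2 (s + 1) (by omega), ← hm1 s (by omega)] at this
    · rw [← mul_assoc, card_range]
      refine mul_le_mul_of_nonneg_right ?_ hN0.le
      push_cast
      rw [mul_one_div, div_le_div_iff₀ (by linarith) (by norm_num)]; linarith
  have c2 : (A2.card : ℝ) ≤ 1 / 8 * N := by
    refine (card_bi' _ _ (1 / D * 2 * N) fun s hs => ?_).trans ?_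
    · have hs' := mem_Icc.1 hs
      refine (card_bi _ _ (fun u => 1 / D * (1 / 2) ^ u * N) fun u hu => ?_).trans ?_
      · have hu' := mem_Icc.1 hu
        refine (card_B2 hV _ _).trans (mul_le_mul_of_nonneg_right ?_ hN0.le)
        simp only [Fintype.card_fin]
        refine num2 D s u n (by omega) hs'.1 hu'.1 ?_
        rw [hm2 (s + 4) (by omega)]
        exact Nat.mul_le_mul_left _ hu'.2
      · rw [← sum_mul, ← mul_sum]
        gcongr
        refine le_trans (sum_le_sum_of_subset_of_nonneg (t := range (m (s + 4) + 1)) ?_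
          (fun _ _ _ => by positivity)) (sum_geometric_two_le _)
        intro u hu
        have := mem_Icc.1 hu
        exact mem_range.2 (by omega)
    · rw [← mul_assoc, Nat.card_Icc]
      refine mul_le_mul_of_nonneg_right ?_ hN0.le
      simp only [Nat.add_sub_cancel]
      push_cast
      rw [← mul_assoc, mul_one_div, div_mul_eq_mul_div,
        div_le_div_iff₀ (by linarith) (by norm_num)]
      linarith
  have c3 : (A3.card : ℝ) ≤ 1 / 8 * N := by
    refine (card_B3 hV _).trans (mul_le_mul_of_nonneg_right ?_ hN0.le)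
    simp only [Fintype.card_fin]
    exact num3 D L hD0 (by omega)
  have c4 : (A4.card : ℝ) ≤ 1 / 8 * N := by
    have h1 := card_B4 (J := Fin (D ^ 3)) hV R ((1 + D ^ 3 + L) ^ R)
    simp only [Fintype.card_fin (D ^ 3), Fintype.card_fin n] at h1
    have h2 : 8 * (D ^ 3 * (1 + D ^ 3 + L) ^ R) ≤ n := by
      have : 2 ^ L ≤ D ^ L := Nat.pow_le_pow_left (by omega) _
      rw [← mul_assoc]; omega
    have h3 : (A4.card : ℝ) * n ≤ ((D ^ 3 * (1 + D ^ 3 + L) ^ R : ℕ) : ℝ) * N := by
      rw [hN]; exact_mod_cast h1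
    have h4 : 8 * ((D ^ 3 * (1 + D ^ 3 + L) ^ R : ℕ) : ℝ) ≤ n := by exact_mod_cast h2
    have h5 : (0 : ℝ) < n := by exact_mod_cast hn0
    refine le_of_mul_le_mul_right (h3.trans ?_) h5
    nlinarith
  obtain ⟨ω, -, hω⟩ : ∃ ω ∈ (univ : Finset (Fin n × Fin (D ^ 3) → Fin n)),
      ω ∉ A1 ∪ A2 ∪ A3 ∪ A4 := by
    refine exists_mem_notMem_of_card_lt_card ?_
    have h1 : (A1 ∪ A2 ∪ A3 ∪ A4).card ≤ A1.card + A2.card + A3.card + A4.card :=
      (card_union_le _ _).trans (Nat.add_le_add_right ((card_union_le _ _).trans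
        (Nat.add_le_add_right (card_union_le _ _) _)) _)
    have h2 : ((A1 ∪ A2 ∪ A3 ∪ A4).card : ℝ) ≤ A1.card + A2.card + A3.card + A4.card := by
      exact_mod_cast h1
    have h3 : ((A1 ∪ A2 ∪ A3 ∪ A4).card : ℝ) < N := by linarith
    rw [hN] at h3
    rw [card_univ]; exact_mod_cast h3
  simp only [mem_union, not_or] at hω
  obtain ⟨⟨⟨h1, h2⟩, h3⟩, h4⟩ := hω
  refine ⟨⟨n, D ^ 3, ω, R, hR⟩, rfl, ⟨hV, ?_, ⟨m, ?_, ?_, ?_, ?_⟩, ?_⟩⟩
  · simp only [Fintype.card_prod, Fintype.card_fin]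
    rw [mul_comm]
    refine Nat.mul_le_mul_left _ (le_trans (by omega) (Nat.le_self_pow (by norm_num) D))
  · simp [m, hn]
  · simp only [Fintype.card_fin]
    rw [hm2 1 (by omega)]
    exact Nat.mul_le_mul_right _ (by rw [pow_one]; omega)
  · intro s hs S T hS hT
    refine not_B1 (a := m (s + 1)) (b := m s) (fun h => h1 ?_) ?_ S T hS hT
    · exact mem_biUnion.2 ⟨s, mem_range.2 hs, h⟩
    · have := hm3 s
      simp only [Fintype.card_fin]; omega
  · intro s hs1 hs2 S hS
    rcases S.eq_empty_or_nonempty with rfl | hne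
    · simp
    have h5 := not_B2 (r := S.card + (6 * S.card / s + 1)) (ω := ω) S (fun h => h2
      (mem_biUnion.2 ⟨s, mem_Icc.2 ⟨hs1, hs2⟩, mem_biUnion.2
        ⟨S.card, mem_Icc.2 ⟨card_pos.2 hne, hS⟩, h⟩⟩))
    have h6 := Nat.mul_div_le (6 * S.card) s
    have h7 := Nat.mul_le_mul_left s (Nat.lt_succ_iff.1 h5)
    refine le_trans h7 ?_
    show s * (S.card + 6 * S.card / s) ≤ _
    rw [mul_add, add_mul]
    omega
  · refine ⟨univ.filter (fun e => (ball ω e R).card ≤ (1 + D ^ 3 + L) ^ R ∧ ω e ∈ ball ω e R),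
      ?_, fun e he => ?_⟩
    · by_contra hcon
      exact h4 (mem_filter.2 ⟨mem_univ _, (not_le.1 hcon).le⟩)
    · refine exists_pot ω e R fun h => he (mem_filter.2 ⟨mem_univ _, ?_, h⟩)
      have := ball_card ω e L (fun v => by
        by_contra hcon
        exact h3 (mem_biUnion.2 ⟨v, mem_univ _, mem_filter.2 ⟨mem_univ _, (not_le.1 hcon).le⟩⟩)) R
      simpa using this

end Pool.Agent.H787Z.LF
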