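import Mathlib

set_option autoImplicit false

namespace Pool.Agent.H787Z.LF

open Filter Topology

/-- Damped fixed point lifting along a parent function. -/
theorem exists_lift_par {V W Y : Type*} [Fintype V] [NormedAddCommGroup W] [NormedSpace ℝ W]
    [CompleteSpace W] [NormedAddCommGroup Y] [NormedSpace ℝ Y] (π : W →L[ℝ] Y)
    (hπ : ∀ y, ∃ w, π w = y ∧ ‖w‖ ≤ 2 * ‖y‖) (Φ : V → Y) (τ : V → ℝ) (h7 : ∀ x, 7 ≤ τ x)
    (hΦ : ∀ x, ‖Φ x‖ ≤ τ x) (par : V → V) (hp1 : ∀ x, ‖Φ x - Φ (par x)‖ ≤ 1)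
    (hp2 : ∀ x, τ (par x) ≤ τ x + 1) :
    ∃ Ψ : V → W, (∀ x, π (Ψ x) = Φ x) ∧ (∀ x, ‖Ψ x‖ ≤ 6 * τ x) ∧
      ∀ x, ‖Ψ x - Ψ (par x)‖ ≤ 21 := by
  classical
  choose L hL1 hL2 using hπ
  set σ : V → W := fun x => L (Φ x) with hσ
  set φ : V → W := fun x => L (Φ x - Φ (par x)) with hφ
  have hσn : ∀ x, ‖σ x‖ ≤ 2 * τ x := fun x => (hL2 _).trans (by linarith [hΦ x])
  have hφn : ∀ x, ‖φ x‖ ≤ 2 := fun x => (hL2 _).trans (by linarith [hp1 x])
  have hτpos : ∀ x, 0 < τ x := fun x => by linarith [h7 x]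
  obtain ⟨B, hB7, hB⟩ : ∃ B : ℝ, 7 ≤ B ∧ ∀ x, τ x ≤ B := by
    refine ⟨7 + ∑ x, τ x, ?_, fun x => ?_⟩
    · have : 0 ≤ ∑ x, τ x := Finset.sum_nonneg fun x _ => (hτpos x).le
      linarith
    · have : τ x ≤ ∑ x, τ x :=
        Finset.single_le_sum (f := τ) (fun x _ => (hτpos x).le) (Finset.mem_univ x)
      linarith
  have hBpos : 0 < B := by linarith
  have ha0 : ∀ x, 0 ≤ 2 / τ x := fun x => by have := hτpos x; positivity
  have ha1 : ∀ x, 2 / τ x ≤ 2 / 7 := fun x =>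
    div_le_div_of_nonneg_left (by norm_num) (by norm_num) (h7 x)
  have haB : ∀ x, 2 / B ≤ 2 / τ x := fun x =>
    div_le_div_of_nonneg_left (by norm_num) (hτpos x) (hB x)
  have haτ : ∀ x, 2 / τ x * τ x = 2 := fun x => div_mul_cancel₀ _ (hτpos x).ne'
  let T : (V → W) → (V → W) := fun Ψ x =>
    (1 - 2 / τ x) • (Ψ (par x) + φ x) + (2 / τ x) • σ x
  have hK0 : 0 ≤ 1 - 2 / B := by
    have : 2 / B ≤ 2 / 7 := div_le_div_of_nonneg_left (by norm_num) (by norm_num) hB7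
    linarith
  let K : NNReal := ⟨1 - 2 / B, hK0⟩
  have hT : ContractingWith K T := by
    refine ⟨?_, LipschitzWith.of_dist_le_mul fun Ψ Ψ' => ?_⟩
    · have : 0 < 2 / B := by positivity
      have h : (K : ℝ) < (1 : NNReal) := by
        show 1 - 2 / B < 1
        linarith
      exact NNReal.coe_lt_coe.1 h
    · refine (dist_pi_le_iff (by positivity)).2 fun x => ?_
      have e : T Ψ x - T Ψ' x = (1 - 2 / τ x) • (Ψ (par x) - Ψ' (par x)) := by
        simp only [T, smul_add, smul_sub]; abel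
      rw [dist_eq_norm, e, norm_smul, Real.norm_of_nonneg (by linarith [ha1 x])]
      have h1 : ‖Ψ (par x) - Ψ' (par x)‖ ≤ dist Ψ Ψ' := by
        rw [← dist_eq_norm]; exact dist_le_pi_dist Ψ Ψ' (par x)
      show _ ≤ (1 - 2 / B) * dist Ψ Ψ'
      exact mul_le_mul (by linarith [haB x]) h1 (norm_nonneg _) hK0
  let S : Set (V → W) := {Ψ | ∀ x, π (Ψ x) = Φ x ∧ ‖Ψ x‖ ≤ 6 * τ x}
  have hSc : IsClosed S := by
    have : S = ⋂ x, ({Ψ : V → W | π (Ψ x) = Φ x} ∩ {Ψ | ‖Ψ x‖ ≤ 6 * τ x}) := by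
      ext Ψ; simp [S]
    rw [this]
    refine isClosed_iInter fun x => IsClosed.inter ?_ ?_
    · exact isClosed_eq (by fun_prop) continuous_const
    · exact isClosed_le (by fun_prop) continuous_const
  have hTS : ∀ Ψ ∈ S, T Ψ ∈ S := by
    intro Ψ hΨ x
    constructor
    · simp only [T, map_add, map_smul, (hΨ _).1, hφ, hσ, hL1]
      rw [add_sub_cancel, ← add_smul]; simp
    · have h1 : ‖Ψ (par x) + φ x‖ ≤ 6 * τ x + 8 :=
        (norm_add_le _ _).trans (by linarith [(hΨ (par x)).2, hp2 x, hφn x])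
      have h2 : ‖T Ψ x‖ ≤ (1 - 2 / τ x) * (6 * τ x + 8) + 2 / τ x * (2 * τ x) := by
        refine (norm_add_le _ _).trans (add_le_add ?_ ?_)
        · rw [norm_smul, Real.norm_of_nonneg (by linarith [ha1 x])]
          exact mul_le_mul_of_nonneg_left h1 (by linarith [ha1 x])
        · rw [norm_smul, Real.norm_of_nonneg (ha0 x)]
          exact mul_le_mul_of_nonneg_left (hσn x) (ha0 x)
      nlinarith [haτ x, ha0 x]
  have hσS : σ ∈ S := fun x => ⟨hL1 _, by linarith [hσn x, hτpos x]⟩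
  have hiter : ∀ n, T^[n] σ ∈ S := by
    intro n
    induction n with
    | zero => exact hσS
    | succ n ih => rw [Function.iterate_succ_apply']; exact hTS _ ih
  have hmem : hT.fixedPoint T ∈ S :=
    hSc.mem_of_tendsto (hT.tendsto_iterate_fixedPoint σ) (Eventually.of_forall hiter)
  have hfix : T (hT.fixedPoint T) = hT.fixedPoint T := hT.fixedPoint_isFixedPt
  set Ψ := hT.fixedPoint T with hΨ
  refine ⟨Ψ, fun x => (hmem x).1, fun x => (hmem x).2, fun x => ?_⟩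
  have e : Ψ x - Ψ (par x) = φ x - (2 / τ x) • (Ψ (par x) + φ x - σ x) := by
    conv_lhs => rw [← congrFun hfix x]
    simp only [T, smul_add, smul_sub, sub_smul, one_smul]; abel
  have h1 : ‖Ψ (par x) + φ x - σ x‖ ≤ 8 * τ x + 8 :=
    (norm_sub_le _ _).trans (by
      linarith [norm_add_le (Ψ (par x)) (φ x), (hmem (par x)).2, hp2 x, hφn x, hσn x])
  rw [e]
  refine (norm_sub_le _ _).trans ?_
  rw [norm_smul, Real.norm_of_nonneg (ha0 x)]
  have := mul_le_mul_of_nonneg_left h1 (ha0 x)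
  nlinarith [haτ x, ha1 x, hφn x]

end Pool.Agent.H787Z.LF
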