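import Mathlib

set_option autoImplicit false

namespace Pool.Agent.H787Z.LF

open Finset

/-- A substochastic rectangular matrix is an average of matchings. -/
theorem birk {Ed V : Type} [Fintype Ed] [Fintype V] [DecidableEq Ed] [DecidableEq V]
    (B : Ed → V → ℝ) (h0 : ∀ e v, 0 ≤ B e v) (hr : ∀ e, ∑ v, B e v ≤ 1)
    (hc : ∀ v, ∑ e, B e v ≤ 1) :
    ∃ w : Equiv.Perm (Ed ⊕ V) → ℝ, (∀ σ, 0 ≤ w σ) ∧ ∑ σ, w σ = 1 ∧
      (∀ σ e, w σ ≠ 0 → σ (Sum.inl e) = Sum.inl e ∨
        ∃ v, σ (Sum.inl e) = Sum.inr v ∧ B e v ≠ 0) ∧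
      (∀ σ e v, w σ ≠ 0 → σ (Sum.inl e) = Sum.inr v → B e v ≠ 0) ∧
      ∀ e, ∑ σ, (if σ (Sum.inl e) = Sum.inl e then w σ else 0) = 1 - ∑ v, B e v := by
  let D : Matrix (Ed ⊕ V) (Ed ⊕ V) ℝ := fun i j =>
    match i, j with
    | Sum.inl e, Sum.inl e' => if e = e' then 1 - ∑ v, B e v else 0
    | Sum.inl e, Sum.inr v => B e v
    | Sum.inr v, Sum.inl e => B e v
    | Sum.inr v, Sum.inr v' => if v = v' then 1 - ∑ e, B e v else 0
  have hD : D ∈ doublyStochastic ℝ (Ed ⊕ V) := by
    rw [mem_doublyStochastic_iff_sum]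
    refine ⟨?_, ?_, ?_⟩
    · rintro (e | v) (e' | v') <;> simp only [D]
      · split_ifs
        · linarith [hr e]
        · exact le_rfl
      · exact h0 _ _
      · exact h0 _ _
      · split_ifs
        · linarith [hc v]
        · exact le_rfl
    · rintro (e | v) <;> simp [D, Fintype.sum_sum_type]
    · rintro (e | v) <;> simp [D, Fintype.sum_sum_type]
  obtain ⟨w, hw0, hw1, hw⟩ := exists_eq_sum_perm_of_mem_doublyStochastic hD
  have key : ∀ i j, ∑ σ, (if σ i = j then w σ else 0) = D i j := by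
    intro i j
    rw [← hw, Matrix.sum_apply]
    refine Finset.sum_congr rfl fun σ _ => ?_
    simp [Equiv.Perm.permMatrix, PEquiv.toMatrix_apply, Equiv.toPEquiv_apply]
  have key2 : ∀ σ i, w σ ≠ 0 → D i (σ i) ≠ 0 := by
    intro σ i hσ h
    have h1 := key i (σ i)
    rw [h] at h1
    have h2 := (Finset.sum_eq_zero_iff_of_nonneg (fun τ _ => by
      split_ifs
      · exact hw0 τ
      · exact le_rfl)).1 h1 σ (Finset.mem_univ _)
    simp at h2
    exact hσ h2
  refine ⟨w, hw0, hw1, ?_, ?_, ?_⟩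
  · intro σ e hσ
    have := key2 σ (Sum.inl e) hσ
    rcases h : σ (Sum.inl e) with e' | v
    · rw [h] at this
      left
      simp only [D] at this
      by_cases he : e = e'
      · rw [he]
      · simp [he] at this
    · rw [h] at this
      exact Or.inr ⟨v, rfl, this⟩
  · intro σ e v hσ h
    have := key2 σ (Sum.inl e) hσ
    rw [h] at this
    exact this
  · intro e
    rw [key]; simp [D]

/-- Hall's theorem with capacities. -/
theorem hall_cap {Ed V : Type} [Fintype Ed] [Fintype V] [DecidableEq Ed] [DecidableEq V]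
    (src tgt : Ed → V) (m : Ed → ℕ) (c : V → ℕ)
    (h : ∀ S : Finset V, ∑ e ∈ univ.filter (fun e => src e ∈ S ∧ tgt e ∈ S), m e ≤ ∑ v ∈ S, c v) :
    ∃ cnt : Ed → V → ℕ, (∀ e v, cnt e v ≠ 0 → v = src e ∨ v = tgt e) ∧
      (∀ e, ∑ v, cnt e v = m e) ∧ ∀ v, ∑ e, cnt e v ≤ c v := by
  classical
  let t : (Σ e, Fin (m e)) → Finset (Σ v, Fin (c v)) := fun i =>
    univ.filter (fun a => a.1 = src i.1 ∨ a.1 = tgt i.1)
  have hH : ∀ s : Finset (Σ e, Fin (m e)), s.card ≤ (s.biUnion t).card := by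
    intro s
    let S : Finset V := s.image (fun i => src i.1) ∪ s.image (fun i => tgt i.1)
    have h1 : s ⊆ (univ.filter (fun e => src e ∈ S ∧ tgt e ∈ S)).sigma (fun e => univ) := by
      intro i hi
      simp only [mem_sigma, mem_filter, mem_univ, true_and, and_true, S, mem_union, mem_image]
      exact ⟨Or.inl ⟨i, hi, rfl⟩, Or.inr ⟨i, hi, rfl⟩⟩
    have h2 : S.sigma (fun v => (univ : Finset (Fin (c v)))) ⊆ s.biUnion t := by
      intro a ha
      simp only [mem_sigma, mem_univ, and_true, S, mem_union, mem_image] at ha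
      simp only [mem_biUnion, t, mem_filter, mem_univ, true_and]
      rcases ha with ⟨i, hi, h⟩ | ⟨i, hi, h⟩
      · exact ⟨i, hi, Or.inl h.symm⟩
      · exact ⟨i, hi, Or.inr h.symm⟩
    have h3 := card_le_card h1
    have h4 := card_le_card h2
    rw [card_sigma] at h3 h4
    simp only [card_univ, Fintype.card_fin] at h3 h4
    exact h3.trans ((h S).trans h4)
  obtain ⟨g, hg1, hg2⟩ := (Finset.all_card_le_biUnion_card_iff_exists_injective t).1 hH
  refine ⟨fun e v => (univ.filter (fun i : Fin (m e) => (g ⟨e, i⟩).1 = v)).card, ?_, ?_, ?_⟩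
  · intro e v hv
    obtain ⟨i, hi⟩ := card_ne_zero.1 hv
    have := hg2 ⟨e, i⟩
    simp only [t, mem_filter, mem_univ, true_and] at this hi
    rw [← hi]; exact this
  · intro e
    have := card_eq_sum_card_fiberwise (s := (univ : Finset (Fin (m e)))) (t := univ)
      (f := fun i => (g ⟨e, i⟩).1) (fun _ _ => mem_univ _)
    rw [← this]; simp
  · intro v
    rw [← card_sigma]
    have : ((univ : Finset (Σ v, Fin (c v))).filter (fun a => a.1 = v)).card = c v := by
      have : (univ : Finset (Σ v, Fin (c v))).filter (fun a => a.1 = v) =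
          ({v} : Finset V).sigma (fun v => univ) := by
        ext a; simp
      rw [this, card_sigma]; simp
    rw [← this]
    refine card_le_card_of_injOn g ?_ hg1.injOn
    intro i hi
    simp only [coe_filter, mem_univ, true_and, Set.mem_ofPred_eq]
    simpa using hi

/-- the layer-cake inequality -/
theorem layer {Ed V : Type} [Fintype Ed] [Fintype V] [DecidableEq V]
    (src tgt : Ed → V) (h : V → ℕ) (c : ℕ)
    (hs : ∀ s : ℕ, 1 ≤ s → ∀ S : Finset V, (∀ v ∈ S, s ≤ h v) →
      s * (univ.filter (fun e => src e ∈ S ∧ tgt e ∈ S)).card ≤ (s + c) * S.card)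
    (S : Finset V) :
    ∑ e ∈ univ.filter (fun e => src e ∈ S ∧ tgt e ∈ S),
      (∑ s ∈ Icc 1 (min (h (src e)) (h (tgt e))), s) ≤ ∑ v ∈ S, ∑ s ∈ Icc 1 (h v), (s + c) := by
  classical
  set H := ∑ v, h v with hH
  have hle : ∀ v, h v ≤ H := fun v =>
    Finset.single_le_sum (f := h) (fun _ _ => Nat.zero_le _) (mem_univ v)
  have e1 : ∀ (k : ℕ) (f : ℕ → ℕ), k ≤ H →
      ∑ s ∈ Icc 1 k, f s = ∑ s ∈ Icc 1 H, if s ≤ k then f s else 0 := by
    intro k f hk
    rw [← sum_filter]
    congr 1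
    ext s; simp only [mem_Icc, mem_filter]; omega
  rw [sum_congr rfl (fun e _ => e1 _ (fun s => s) ((min_le_left _ _).trans (hle _))),
    sum_congr rfl (fun v _ => e1 _ (fun s => s + c) (hle v)), sum_comm, sum_comm (s := S)]
  refine sum_le_sum fun s hs1 => ?_
  rw [← sum_filter, ← sum_filter, sum_const, sum_const, smul_eq_mul, smul_eq_mul, mul_comm,
    mul_comm _ (s + c)]
  refine le_trans (Nat.mul_le_mul_left _ (card_le_card ?_))
    (hs s (mem_Icc.1 hs1).1 (S.filter (fun v => s ≤ h v)) (fun v hv => (mem_filter.1 hv).2))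
  intro e he
  simp only [mem_filter, mem_univ, true_and, le_min_iff] at he ⊢
  tauto

theorem sum_Icc_id (k : ℕ) : (2 : ℝ) * ((∑ s ∈ Icc 1 k, s : ℕ) : ℝ) = k * (k + 1) := by
  induction k with
  | zero => simp
  | succ k ih => rw [sum_Icc_succ_top (by omega)]; push_cast at ih ⊢; linarith

theorem sum_Icc_add (k c : ℕ) :
    (2 : ℝ) * ((∑ s ∈ Icc 1 k, (s + c) : ℕ) : ℝ) = k * (k + 1 + 2 * c) := by
  induction k with
  | zero => simp
  | succ k ih => rw [sum_Icc_succ_top (by omega)]; push_cast at ih ⊢; linarith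

/-- A random parent function covering each edge with high probability. -/
theorem exists_par_distr {Ed V : Type} [Fintype Ed] [Fintype V] [DecidableEq Ed] [DecidableEq V]
    (src tgt : Ed → V) (h : V → ℕ) (hh1 : ∀ e, h (src e) ≤ h (tgt e) + 1)
    (hh2 : ∀ e, h (tgt e) ≤ h (src e) + 1)
    (hs : ∀ s : ℕ, 1 ≤ s → ∀ S : Finset V, (∀ v ∈ S, s ≤ h v) →
      s * (univ.filter (fun e => src e ∈ S ∧ tgt e ∈ S)).card ≤ (s + 6) * S.card) :
    ∃ (w : Equiv.Perm (Ed ⊕ V) → ℝ) (par : Equiv.Perm (Ed ⊕ V) → V → V),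
      (∀ σ, 0 ≤ w σ) ∧ ∑ σ, w σ = 1 ∧
      (∀ σ x, par σ x = x ∨ ∃ e, (src e = x ∧ tgt e = par σ x) ∨ (tgt e = x ∧ src e = par σ x)) ∧
      ∀ e, ∑ σ, (if par σ (src e) = tgt e ∨ par σ (tgt e) = src e then 0 else w σ) ≤
        14 / ((min (h (src e)) (h (tgt e)) : ℕ) + 14 : ℝ) := by
  classical
  obtain ⟨cnt, hc1, hc2, hc3⟩ := hall_cap src tgt
    (fun e => ∑ s ∈ Icc 1 (min (h (src e)) (h (tgt e))), s)
    (fun v => ∑ s ∈ Icc 1 (h v), (s + 6)) (layer src tgt h 6 hs)
  set G : V → ℕ := fun v => ∑ s ∈ Icc 1 (h v), (s + 6) with hG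
  let B : Ed → V → ℝ := fun e v => (cnt e v : ℝ) / (G v : ℝ)
  have hB0 : ∀ e v, 0 ≤ B e v := fun e v => by positivity
  have hGv : ∀ v, (2 : ℝ) * G v = h v * (h v + 13) := fun v => by
    have := sum_Icc_add (h v) 6
    simp only [hG]; push_cast at this ⊢; linarith
  have hcol : ∀ v, ∑ e, B e v ≤ 1 := by
    intro v
    simp only [B]
    rw [← sum_div]
    refine div_le_one_of_le₀ ?_ (by positivity)
    exact_mod_cast hc3 v
  have hrow : ∀ e, ∑ v, B e v ≤ 1 ∧
      1 - ∑ v, B e v ≤ 14 / ((min (h (src e)) (h (tgt e)) : ℕ) + 14 : ℝ) := by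
    intro e
    set k := min (h (src e)) (h (tgt e)) with hk
    have hm : (2 : ℝ) * ∑ v, (cnt e v : ℝ) = k * (k + 1) := by
      have := sum_Icc_id k
      rw [← hc2 e] at this
      push_cast at this; exact this
    have hkv : ∀ v, cnt e v ≠ 0 → k ≤ h v ∧ h v ≤ k + 1 := by
      intro v hv
      have := hh1 e; have := hh2 e
      rcases hc1 e v hv with rfl | rfl <;> omega
    rcases Nat.eq_zero_or_pos k with hk0 | hk0
    · have hz : ∀ v, cnt e v = 0 := by
        intro v
        have h1 : ∑ v, cnt e v = 0 := by rw [hc2 e, ← hk, hk0]; simp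
        exact (Finset.sum_eq_zero_iff.1 h1) v (mem_univ _)
      simp [B, hz, hk0]
    · have hk1 : (1 : ℝ) ≤ k := by exact_mod_cast hk0
      constructor
      · have : ∑ v, B e v ≤ ∑ v, (cnt e v : ℝ) / (k * (k + 1) / 2) := by
          refine sum_le_sum fun v _ => ?_
          by_cases hv : cnt e v = 0
          · simp [B, hv]
          · have h1 : (k : ℝ) ≤ h v := by exact_mod_cast (hkv v hv).1
            refine div_le_div_of_nonneg_left (by positivity) (by positivity) ?_
            nlinarith [hGv v]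
        rw [← sum_div] at this
        refine this.trans (div_le_one_of_le₀ (by linarith) (by positivity))
      · have : ∑ v, (cnt e v : ℝ) / ((k + 1) * (k + 14) / 2) ≤ ∑ v, B e v := by
          refine sum_le_sum fun v _ => ?_
          by_cases hv : cnt e v = 0
          · simp [B, hv]
          · have h1 : (k : ℝ) ≤ h v := by exact_mod_cast (hkv v hv).1
            have h2 : (h v : ℝ) ≤ k + 1 := by exact_mod_cast (hkv v hv).2
            refine div_le_div_of_nonneg_left (by positivity) ?_ ?_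
            · nlinarith [hGv v]
            · nlinarith [hGv v]
        rw [← sum_div] at this
        have e1 : (∑ v, (cnt e v : ℝ)) / ((k + 1) * (k + 14) / 2) = 1 - 14 / (k + 14 : ℝ) := by
          have : ∑ v, (cnt e v : ℝ) = k * (k + 1) / 2 := by linarith
          rw [this]; field_simp; ring
        linarith
  obtain ⟨w, hw0, hw1, hw2, hw3, hw4⟩ := birk B hB0 (fun e => (hrow e).1) hcol
  let par : Equiv.Perm (Ed ⊕ V) → V → V := fun σ x =>
    match σ.symm (Sum.inr x) with
    | Sum.inl e => if src e = x then tgt e else if tgt e = x then src e else x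
    | Sum.inr _ => x
  refine ⟨w, par, hw0, hw1, ?_, ?_⟩
  · intro σ x
    simp only [par]
    rcases σ.symm (Sum.inr x) with e | v
    · simp only
      split_ifs with h1 h2
      · exact Or.inr ⟨e, Or.inl ⟨h1, rfl⟩⟩
      · exact Or.inr ⟨e, Or.inr ⟨h2, rfl⟩⟩
      · exact Or.inl rfl
    · exact Or.inl rfl
  · intro e
    refine le_trans ?_ (hrow e).2
    rw [← hw4 e]
    refine sum_le_sum fun σ _ => ?_
    by_cases hσ : w σ = 0
    · simp [hσ]
    rcases hw2 σ e hσ with h1 | ⟨v, h1, h2⟩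
    · rw [if_pos h1]
      split_ifs
      · exact hw0 σ
      · exact le_rfl
    · have h3 : σ.symm (Sum.inr v) = Sum.inl e := by rw [← h1]; simp
      have h4 : cnt e v ≠ 0 := by
        intro h; apply h2; simp [B, h]
      have h5 : par σ (src e) = tgt e ∨ par σ (tgt e) = src e := by
        rcases hc1 e v h4 with rfl | rfl
        · left; simp only [par, h3]; simp
        · by_cases h6 : src e = tgt e
          · left; simp only [par, h6, h3]; simp
          · right; simp only [par, h3]; simp [h6]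
      rw [if_pos h5]
      split_ifs
      · exact hw0 σ
      · exact le_rfl

end Pool.Agent.H787Z.LF
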