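import Pool.Agent.H787Z.LF.Fix
import Pool.Agent.H787Z.LF.Orient

set_option autoImplicit false

namespace Pool.Agent.H787Z.LF

open Finset

theorem lift_heights {Ed V : Type} [Fintype Ed] [Fintype V] [DecidableEq Ed] [DecidableEq V]
    (src tgt : Ed → V) (h : V → ℕ) (hh1 : ∀ e, h (src e) ≤ h (tgt e) + 1)
    (hh2 : ∀ e, h (tgt e) ≤ h (src e) + 1)
    (hs : ∀ s : ℕ, 1 ≤ s → ∀ S : Finset V, (∀ v ∈ S, s ≤ h v) →
      s * (univ.filter (fun e => src e ∈ S ∧ tgt e ∈ S)).card ≤ (s + 6) * S.card)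
    {W Y : Type*} [NormedAddCommGroup W] [NormedSpace ℝ W]
    [CompleteSpace W] [NormedAddCommGroup Y] [NormedSpace ℝ Y] (π : W →L[ℝ] Y)
    (hπ : ∀ y, ∃ w, π w = y ∧ ‖w‖ ≤ 2 * ‖y‖) (Φ : V → Y)
    (hΦ : ∀ x, ‖Φ x‖ ≤ h x + 7) (hE : ∀ e, ‖Φ (src e) - Φ (tgt e)‖ ≤ 1) :
    ∃ Ψ : V → W, (∀ x, π (Ψ x) = Φ x) ∧ (∀ x, ‖Ψ x‖ ≤ 6 * (h x + 7)) ∧
      ∀ e, ‖Ψ (src e) - Ψ (tgt e)‖ ≤ 200 := by
  classical
  obtain ⟨w, par, hw0, hw1, hpar, hcov⟩ := exists_par_distr src tgt h hh1 hh2 hs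
  have hex : ∀ σ, ∃ Ψ : V → W, (∀ x, π (Ψ x) = Φ x) ∧ (∀ x, ‖Ψ x‖ ≤ 6 * ((h x : ℝ) + 7)) ∧
      ∀ x, ‖Ψ x - Ψ (par σ x)‖ ≤ 21 := by
    intro σ
    refine exists_lift_par π hπ Φ (fun x => (h x : ℝ) + 7)
      (fun x => by have : (0 : ℝ) ≤ h x := Nat.cast_nonneg _; linarith) hΦ (par σ) ?_ ?_
    · intro x
      rcases hpar σ x with h1 | ⟨e, ⟨h1, h2⟩ | ⟨h1, h2⟩⟩
      · rw [h1]; simp
      · rw [← h2, ← h1]; exact hE e
      · rw [← h2, ← h1, norm_sub_rev]; exact hE e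
    · intro x
      rcases hpar σ x with h1 | ⟨e, ⟨h1, h2⟩ | ⟨h1, h2⟩⟩
      · rw [h1]; linarith
      · rw [← h2, ← h1]
        have : (h (tgt e) : ℝ) ≤ h (src e) + 1 := by exact_mod_cast hh2 e
        linarith
      · rw [← h2, ← h1]
        have : (h (src e) : ℝ) ≤ h (tgt e) + 1 := by exact_mod_cast hh1 e
        linarith
  choose Ψ hΨ1 hΨ2 hΨ3 using hex
  refine ⟨fun x => ∑ σ, w σ • Ψ σ x, ?_, ?_, ?_⟩
  · intro x
    simp only [map_sum, map_smul, hΨ1]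
    rw [← sum_smul, hw1, one_smul]
  · intro x
    refine (norm_sum_le _ _).trans ?_
    calc ∑ σ, ‖w σ • Ψ σ x‖ ≤ ∑ σ, w σ * (6 * ((h x : ℝ) + 7)) := by
          refine sum_le_sum fun σ _ => ?_
          rw [norm_smul, Real.norm_of_nonneg (hw0 σ)]
          exact mul_le_mul_of_nonneg_left (hΨ2 σ x) (hw0 σ)
      _ = _ := by rw [← sum_mul, hw1, one_mul]
  · intro e
    set k := min (h (src e)) (h (tgt e)) with hk
    have hk0 : (0 : ℝ) ≤ k := Nat.cast_nonneg _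
    have hsum : (h (src e) : ℝ) + h (tgt e) ≤ 2 * k + 1 := by
      have := hh1 e; have := hh2 e
      have : h (src e) + h (tgt e) ≤ 2 * k + 1 := by omega
      exact_mod_cast this
    simp only
    rw [← sum_sub_distrib]
    refine (norm_sum_le _ _).trans ?_
    calc ∑ σ, ‖w σ • Ψ σ (src e) - w σ • Ψ σ (tgt e)‖
        ≤ ∑ σ, (w σ * 21 + (if par σ (src e) = tgt e ∨ par σ (tgt e) = src e then 0 else w σ) *
            (12 * ((k : ℝ) + 14))) := by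
          refine sum_le_sum fun σ _ => ?_
          rw [← smul_sub, norm_smul, Real.norm_of_nonneg (hw0 σ)]
          split_ifs with h1
          · rw [zero_mul, add_zero]
            refine mul_le_mul_of_nonneg_left ?_ (hw0 σ)
            rcases h1 with h1 | h1
            · rw [← h1]; exact hΨ3 σ _
            · rw [← h1, norm_sub_rev]; exact hΨ3 σ _
          · have h2 : ‖Ψ σ (src e) - Ψ σ (tgt e)‖ ≤ 12 * ((k : ℝ) + 14) :=
              (norm_sub_le _ _).trans (by linarith [hΨ2 σ (src e), hΨ2 σ (tgt e)])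
            have := mul_le_mul_of_nonneg_left h2 (hw0 σ)
            linarith [hw0 σ]
      _ ≤ 21 + 14 / ((k : ℝ) + 14) * (12 * ((k : ℝ) + 14)) := by
          rw [sum_add_distrib, ← sum_mul, ← sum_mul, hw1, one_mul]
          gcongr
          exact hcov e
      _ ≤ 200 := by
          have : 14 / ((k : ℝ) + 14) * (12 * ((k : ℝ) + 14)) = 168 := by field_simp; norm_num
          rw [this]; norm_num

/-- The combinatorial properties of the finite graphs used. -/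
structure Good {Ed V : Type} [Fintype Ed] [Fintype V] [DecidableEq V]
    (src tgt : Ed → V) (R K : ℕ) : Prop where
  pos : 0 < Fintype.card V
  many : (2 * R + 3) * Fintype.card V ≤ Fintype.card Ed
  conc : ∃ m : ℕ → ℕ, Fintype.card V = 2 * m 0 ∧ K * m 1 ≤ Fintype.card V ∧
    (∀ s < 2 * R + 4, ∀ S T : Finset V, m (s + 1) ≤ S.card → T.card ≤ m s →
      ∃ e, src e ∈ S ∧ tgt e ∉ T) ∧
    ∀ s : ℕ, 1 ≤ s → s ≤ 2 * R → ∀ S : Finset V, S.card ≤ m (s + 4) →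
      s * (univ.filter (fun e => src e ∈ S ∧ tgt e ∈ S)).card ≤ (s + 6) * S.card
  girth : ∃ bad : Finset Ed, bad.card ≤ Fintype.card V ∧ ∀ e ∉ bad, ∃ f : V → ℝ,
    (∀ v, |f v| ≤ R) ∧ (∀ e', e' ≠ e → |f (src e') - f (tgt e')| ≤ 1) ∧
      f (tgt e) - f (src e) = R

theorem Good.lift {Ed V : Type} [Fintype Ed] [Fintype V] [DecidableEq Ed] [DecidableEq V]
    {src tgt : Ed → V} {R K : ℕ} (hG : Good src tgt R K) (hR : 1 ≤ R)
    {W Y : Type*} [NormedAddCommGroup W] [NormedSpace ℝ W]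
    [CompleteSpace W] [NormedAddCommGroup Y] [NormedSpace ℝ Y] (π : W →L[ℝ] Y)
    (hπ : ∀ y, ∃ w, π w = y ∧ ‖w‖ ≤ 2 * ‖y‖) (C : Finset Y) (hC : C.card ≤ K)
    (hcov : ∀ y : Y, ‖y‖ ≤ R → ∃ q ∈ C, ‖y - q‖ ≤ 1) (Φ : V → Y)
    (hΦ : ∀ x, ‖Φ x‖ ≤ R) (hE : ∀ e, ‖Φ (src e) - Φ (tgt e)‖ ≤ 1) :
    ∃ Ψ : V → W, (∀ x, π (Ψ x) = Φ x) ∧ (∀ x, ‖Ψ x‖ ≤ 200 * R) ∧
      ∀ e, ‖Ψ (src e) - Ψ (tgt e)‖ ≤ 200 := by
  classical
  obtain ⟨m, hm0, hm1, hexp, hsp⟩ := hG.conc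
  have hpos := hG.pos
  have hR' : (1 : ℝ) ≤ R := by exact_mod_cast hR
  choose cq hcq1 hcq2 using fun x => hcov (Φ x) (hΦ x)
  obtain ⟨x0⟩ : Nonempty V := Fintype.card_pos_iff.1 hpos
  obtain ⟨q, hqC, hq⟩ : ∃ q ∈ C, m 1 ≤ (univ.filter (fun x => cq x = q)).card ∧
      0 < (univ.filter (fun x => cq x = q)).card := by
    rcases Nat.eq_zero_or_pos (m 1) with h0 | h0
    · refine ⟨cq x0, hcq1 x0, by omega, card_pos.2 ⟨x0, by simp⟩⟩
    · obtain ⟨q, hq1, hq2⟩ := exists_le_card_fiber_of_mul_le_card_of_maps_to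
        (s := univ) (t := C) (f := cq) (n := m 1) (fun x _ => hcq1 x) ⟨cq x0, hcq1 x0⟩
        (by rw [card_univ]; exact (Nat.mul_le_mul_right _ hC).trans hm1)
      exact ⟨q, hq1, hq2, by omega⟩
  have hqn : ‖q‖ ≤ R + 1 := by
    obtain ⟨x, hx⟩ := card_pos.1 hq.2
    have hx' : cq x = q := (mem_filter.1 hx).2
    have h1 := hcq2 x
    rw [hx'] at h1
    have h2 : ‖q‖ ≤ ‖Φ x‖ + ‖Φ x - q‖ := by
      calc ‖q‖ = ‖Φ x - (Φ x - q)‖ := by congr 1; abel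
        _ ≤ _ := norm_sub_le _ _
    linarith [hΦ x]
  set t : V → ℝ := fun x => ‖Φ x - q‖ with ht
  have ht1 : ∀ e, t (src e) ≤ t (tgt e) + 1 := fun e => by
    have : Φ (src e) - q = (Φ (tgt e) - q) + (Φ (src e) - Φ (tgt e)) := by abel
    simp only [ht]; rw [this]
    exact (norm_add_le _ _).trans (by linarith [hE e])
  have ht2 : ∀ e, t (tgt e) ≤ t (src e) + 1 := fun e => by
    have : Φ (tgt e) - q = (Φ (src e) - q) - (Φ (src e) - Φ (tgt e)) := by abel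
    simp only [ht]; rw [this]
    exact (norm_sub_le _ _).trans (by linarith [hE e])
  have ht3 : ∀ x, t x ≤ 2 * R + 1 := fun x =>
    (norm_sub_le _ _).trans (by linarith [hΦ x])
  have hU : ∀ s ≤ 2 * R + 4, (univ.filter (fun x => 2 + (s : ℝ) < t x)).card ≤ m s := by
    intro s
    induction s with
    | zero =>
      intro _
      by_contra hcon
      have h1 : (univ.filter (fun x => ¬ (2 + ((0 : ℕ) : ℝ) < t x))).card ≤ m 0 := by
        have := card_filter_add_card_filter_not (s := (univ : Finset V))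
          (fun x => 2 + ((0 : ℕ) : ℝ) < t x)
        rw [card_univ] at this
        omega
      obtain ⟨e, he1, he2⟩ := hexp 0 (by omega) _ _ hq.1 h1
      simp only [mem_filter, mem_univ, true_and, not_not] at he1 he2
      have h2 := hcq2 (src e)
      rw [he1] at h2
      have h3 := ht2 e
      simp only [ht] at h3 he2
      push_cast at he2
      linarith
    | succ s ih =>
      intro hs
      by_contra hcon
      obtain ⟨e, he1, he2⟩ := hexp s (by omega) _ _ (not_le.1 hcon).le (ih (by omega))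
      simp only [mem_filter, mem_univ, true_and, not_lt] at he1 he2
      push_cast at he1
      linarith [ht1 e]
  have hceil : ∀ a b : ℝ, a ≤ b + 1 → 0 ≤ b → ⌈a⌉₊ - 7 ≤ ⌈b⌉₊ - 7 + 1 := by
    intro a b hab hb
    have h1 := Nat.ceil_mono hab
    rw [Nat.ceil_add_one hb] at h1
    omega
  have hh3 : ∀ x, ⌈t x⌉₊ ≤ 2 * R + 1 := fun x => Nat.ceil_le.2 (by push_cast; exact ht3 x)
  obtain ⟨Ψ, hΨ1, hΨ2, hΨ3⟩ := lift_heights src tgt (fun x => ⌈t x⌉₊ - 7)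
    (fun e => hceil _ _ (ht1 e) (norm_nonneg _)) (fun e => hceil _ _ (ht2 e) (norm_nonneg _))
    (by
      intro s hs1 S hS
      rcases S.eq_empty_or_nonempty with rfl | ⟨v, hv⟩
      · simp
      have h1 := hS v hv
      have h2 := hh3 v
      refine hsp s hs1 (by omega) S (le_trans (card_le_card ?_) (hU (s + 4) (by omega)))
      intro x hx
      have h3 := hS x hx
      have h4 : s + 6 < ⌈t x⌉₊ := by omega
      have h5 := Nat.lt_ceil.1 h4
      simp only [mem_filter, mem_univ, true_and]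
      push_cast at h5 ⊢
      linarith)
    π hπ (fun x => Φ x - q)
    (by
      intro x
      have h1 : t x ≤ ⌈t x⌉₊ := Nat.le_ceil _
      have h2 : ⌈t x⌉₊ ≤ ⌈t x⌉₊ - 7 + 7 := by omega
      have h3 : (⌈t x⌉₊ : ℝ) ≤ ((⌈t x⌉₊ - 7 : ℕ) : ℝ) + 7 := by exact_mod_cast h2
      exact h1.trans h3)
    (by intro e; simpa using hE e)
  obtain ⟨q', hq'1, hq'2⟩ := hπ q
  refine ⟨fun x => Ψ x + q', ?_, ?_, ?_⟩
  · intro x; simp [hΨ1, hq'1]
  · intro x
    have h1 : ⌈t x⌉₊ - 7 ≤ 2 * R + 1 := by have := hh3 x; omega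
    have h2 : ((⌈t x⌉₊ - 7 : ℕ) : ℝ) ≤ 2 * R + 1 := by exact_mod_cast h1
    have h3 := hΨ2 x
    exact (norm_add_le _ _).trans (by linarith)
  · intro e; simpa using hΨ3 e

end Pool.Agent.H787Z.LF
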