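import Pool.Agent.H787Z.LF.Space

set_option autoImplicit false

namespace Pool.Agent.H787Z.LF

open Finset Filter Topology

/-- Operators out of an `ℓ¹`-sum. -/
theorem exists_sumOp {E : ℕ → Type} [∀ j, NormedAddCommGroup (E j)] [∀ j, NormedSpace ℝ (E j)]
    {Y : Type} [NormedAddCommGroup Y] [NormedSpace ℝ Y] [CompleteSpace Y]
    (Λ : ∀ j, E j →L[ℝ] Y) (C : ℝ) (hC : 0 ≤ C) (h : ∀ j, ‖Λ j‖ ≤ C) :
    ∃ T : lp E 1 →L[ℝ] Y, ‖T‖ ≤ C ∧ ∀ x, HasSum (fun j => Λ j (x j)) (T x) := by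
  refine ⟨(lp.tsumCLM ℝ ℕ Y).comp (lp.mapCLM 1 Λ hC h), ?_, fun x => ?_⟩
  · refine (ContinuousLinearMap.opNorm_comp_le _ _).trans ?_
    have h1 := lp.norm_tsumCLM_le (α := ℕ) (𝕜 := ℝ) (E := Y)
    have h2 := lp.norm_mapCLM_le 1 Λ hC h
    have h3 := norm_nonneg (lp.mapCLM 1 Λ hC h)
    nlinarith
  · have : Summable (fun j => (lp.mapCLM 1 Λ hC h x) j) :=
      .of_norm (by simpa using (lp.mapCLM 1 Λ hC h x).2.summable)
    exact this.hasSum

/-- A sequence of graphs, each good for all the earlier ones. -/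
theorem exists_seq (hex : ∀ R K : ℕ, 1 ≤ R → ∃ G : Gr, G.R = R ∧ Good G.src G.tgt G.R K) :
    ∃ G : ℕ → Gr, (∀ j, (G j).R = j + 1) ∧ (∀ j, ∃ K, Good (G j).src (G j).tgt (G j).R K) ∧
      ∀ k j, k < j → ∃ K, Good (G j).src (G j).tgt (G j).R K ∧ ∃ C : Finset (G k).E, C.card ≤ K ∧
        ∀ y : (G k).E, ‖y‖ ≤ (G j).R → ∃ q ∈ C, ‖y - q‖ ≤ 1 := by
  choose nx hnx1 hnx2 using fun j K : ℕ => hex (j + 1) K (by omega)
  choose cov hcov using fun (G : Gr) (r : ℕ) => G.exists_cover r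
  let st : ℕ → Gr × (ℕ → ℕ) := fun j => Nat.rec (motive := fun _ => Gr × (ℕ → ℕ))
    (nx 0 0, fun _ => 0)
    (fun j p => (nx (j + 1) (p.2 (j + 2) + (cov p.1 (j + 2)).card),
      fun r => p.2 r + (cov p.1 r).card)) j
  have hst1 : ∀ j, (st j).1 = nx j ((st j).2 (j + 1)) := by
    intro j; cases j <;> rfl
  have hst2 : ∀ j r, (st (j + 1)).2 r = (st j).2 r + (cov (st j).1 r).card := fun j r => rfl
  have hmono : ∀ k j r, k < j → (cov (st k).1 r).card ≤ (st j).2 r := by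
    intro k j r hkj
    induction j with
    | zero => omega
    | succ j ih =>
      rw [hst2]
      rcases Nat.lt_succ_iff_lt_or_eq.1 hkj with h | rfl
      · exact (ih h).trans (Nat.le_add_right _ _)
      · exact Nat.le_add_left _ _
  have hR : ∀ j, (st j).1.R = j + 1 := fun j => by rw [hst1]; exact hnx1 _ _
  have hG : ∀ j, Good (st j).1.src (st j).1.tgt (st j).1.R ((st j).2 (j + 1)) := by
    intro j
    have := hnx2 j ((st j).2 (j + 1))
    rw [← hst1] at this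
    exact this
  refine ⟨fun j => (st j).1, hR, fun j => ⟨_, hG j⟩, fun k j hkj =>
    ⟨_, hG j, cov (st k).1 (j + 1), hmono k j _ hkj, ?_⟩⟩
  intro y hy
  refine hcov _ _ y ?_
  rw [hR] at hy
  exact hy

theorem core (G : ℕ → Gr) (k : ℕ)
    (hC : ∀ j, k < j → ∃ K, Good (G j).src (G j).tgt (G j).R K ∧
      ∃ C : Finset (G k).E, C.card ≤ K ∧
        ∀ y : (G k).E, ‖y‖ ≤ (G j).R → ∃ q ∈ C, ‖y - q‖ ≤ 1)
    {X : Type} [NormedAddCommGroup X] [NormedSpace ℝ X]
    (ι : ∀ j, (G j).E →L[ℝ] X) (p : ∀ j, X →L[ℝ] (G j).E)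
    (hι : ∀ j y, ‖ι j y‖ = ‖y‖) (hp : ∀ j x, ‖p j x‖ ≤ ‖x‖)
    (hsum : ∀ x, HasSum (fun j => ι j (p j x)) x)
    (hop : ∀ (Λ : ∀ j, (G j).E →L[ℝ] (G k).W) (C : ℝ), 0 ≤ C → (∀ j, ‖Λ j‖ ≤ C) →
      ∃ T : X →L[ℝ] (G k).W, ‖T‖ ≤ C ∧ ∀ x, HasSum (fun j => Λ j (p j x)) (T x))
    (a b : ℝ) (ha0 : 0 < a) (hb0 : 0 ≤ b) (J : ℕ → ((G k).E →L[ℝ] X))
    (Q : ℕ → (X →L[ℝ] (G k).E)) (hJ : ∀ i y, ‖J i y‖ ≤ b * ‖y‖) (hQ : ∀ i x, ‖Q i x‖ ≤ a * ‖x‖)
    (hQJ : ∀ i i' y, Q i (J i' y) = if i = i' then y else 0) :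
    ∃ S : (G k).E →L[ℝ] (G k).W, (∀ y, (G k).π (S y) = y) ∧ ‖S‖ ≤ 400 * a * b + 1 := by
  classical
  obtain ⟨σ, hσ⟩ := (G k).exists_section
  set ε : ℝ := 1 / ((k + 1) * (‖σ‖ + 1) * a) with hε
  have hε0 : 0 < ε := by positivity
  obtain ⟨i, i', hii, hclose⟩ : ∃ i i', i ≠ i' ∧ ∀ j ≤ k, ‖(p j).comp (J i - J i')‖ ≤ ε := by
    let F : ℕ → (∀ j : Fin (k + 1), (G k).E →L[ℝ] (G j).E) := fun i j => (p j).comp (J i)
    have : ProperSpace (∀ j : Fin (k + 1), (G k).E →L[ℝ] (G j).E) :=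
      FiniteDimensional.proper ℝ _
    have hF : ∀ i, F i ∈ Metric.closedBall (0 : ∀ j : Fin (k + 1), (G k).E →L[ℝ] (G j).E) b := by
      intro i
      rw [mem_closedBall_zero_iff, pi_norm_le_iff_of_nonneg hb0]
      intro j
      exact ContinuousLinearMap.opNorm_le_bound _ hb0 fun y => (hp _ _).trans (hJ i y)
    obtain ⟨l, -, φ, hφ, hl⟩ := tendsto_subseq_of_bounded Metric.isBounded_closedBall hF
    obtain ⟨N, hN⟩ := Metric.cauchySeq_iff.1 hl.cauchySeq ε hε0
    refine ⟨φ N, φ (N + 1), (hφ (Nat.lt_succ_self N)).ne, fun j hj => ?_⟩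
    have h1 := hN N le_rfl (N + 1) (Nat.le_succ N)
    have h2 := (dist_le_pi_dist _ _ (⟨j, by omega⟩ : Fin (k + 1))).trans h1.le
    rw [dist_eq_norm] at h2
    rw [ContinuousLinearMap.comp_sub]
    exact h2
  let u : ∀ j, (G j).E →L[ℝ] (G k).E := fun j => (Q i).comp (ι j)
  have hu : ∀ j, ‖u j‖ ≤ a := fun j =>
    ContinuousLinearMap.opNorm_le_bound _ ha0.le fun y => by
      have := hQ i (ι j y)
      rwa [hι] at this
  have hΛ : ∀ j, ∃ Λ : (G j).E →L[ℝ] (G k).W, ‖Λ‖ ≤ 200 * a ∧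
      ∀ y, (G k).π (Λ y) = if k < j then u j y else 0 := by
    intro j
    by_cases hj : k < j
    · obtain ⟨K, hK, C, hC1, hC2⟩ := hC j hj
      obtain ⟨Λ, h1, h2⟩ := (G j).op_lift hK (G k) C hC1 hC2 (u j) a ha0 (hu j)
      exact ⟨Λ, h1, fun y => by rw [if_pos hj, h2]⟩
    · exact ⟨0, by simp [ha0.le], fun y => by simp [hj]⟩
  choose Λ hΛ1 hΛ2 using hΛ
  obtain ⟨L, hL1, hL2⟩ := hop Λ (200 * a) (by positivity) hΛ1
  let S : (G k).E →L[ℝ] (G k).W := L.comp (J i - J i') +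
    ∑ j ∈ range (k + 1), σ.comp ((u j).comp ((p j).comp (J i - J i')))
  have hS : ∀ y, (G k).π (S y) = y := by
    intro y
    set x := (J i - J i') y with hx
    have h1 : HasSum (fun j => u j (p j x)) (Q i x) :=
      (Q i).hasSum (hsum x)
    have h2 : HasSum (fun j => if k < j then u j (p j x) else 0) ((G k).π (L x)) := by
      have := (G k).π.hasSum (hL2 x)
      simpa only [hΛ2] using this
    have h3 : HasSum (fun j => if k < j then 0 else u j (p j x))
        (∑ j ∈ range (k + 1), if k < j then 0 else u j (p j x)) :=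
      hasSum_sum_of_ne_finset_zero fun j hj => by
        rw [if_pos (by simpa [Nat.succ_le_iff] using hj)]
    have h4 := h2.add h3
    have h5 : (fun j => (if k < j then u j (p j x) else 0) + if k < j then 0 else u j (p j x)) =
        fun j => u j (p j x) := by
      funext j; split_ifs <;> simp
    rw [h5] at h4
    have h6 := h4.unique h1
    have h7 : Q i x = y := by
      rw [hx, sub_apply, map_sub, hQJ, hQJ, if_pos rfl, if_neg hii, sub_zero]
    refine Eq.trans ?_ (h6.trans h7)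
    simp only [S, add_apply, _root_.sum_apply,
      ContinuousLinearMap.comp_apply, map_add, map_sum, hσ, ← hx]
    congr 1
    refine sum_congr rfl fun j hj => ?_
    rw [if_neg (by have := mem_range.1 hj; omega)]
  have hSn : ‖S‖ ≤ 400 * a * b + 1 := by
    refine (norm_add_le _ _).trans (add_le_add ?_ ?_)
    · refine (ContinuousLinearMap.opNorm_comp_le _ _).trans ?_
      have h1 : ‖J i - J i'‖ ≤ 2 * b := by
        refine (norm_sub_le _ _).trans ?_
        linarith [ContinuousLinearMap.opNorm_le_bound _ hb0 (hJ i),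
          ContinuousLinearMap.opNorm_le_bound _ hb0 (hJ i')]
      have := mul_le_mul hL1 h1 (norm_nonneg _) (by positivity)
      linarith
    · refine (norm_sum_le _ _).trans ?_
      have h1 : ∀ j ∈ range (k + 1),
          ‖σ.comp ((u j).comp ((p j).comp (J i - J i')))‖ ≤ (‖σ‖ + 1) * (a * ε) := by
        intro j hj
        refine (ContinuousLinearMap.opNorm_comp_le _ _).trans ?_
        refine mul_le_mul (by linarith) ?_ (norm_nonneg _) (by positivity)
        refine (ContinuousLinearMap.opNorm_comp_le _ _).trans ?_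
        exact mul_le_mul (hu j) (hclose j (by have := mem_range.1 hj; omega)) (norm_nonneg _) ha0.le
      refine (sum_le_card_nsmul _ _ _ h1).trans ?_
      rw [card_range, nsmul_eq_mul, hε]
      push_cast
      apply le_of_eq
      field_simp
  exact ⟨S, hS, hSn⟩

theorem copies {X : Type} [NormedAddCommGroup X] [NormedSpace ℝ X] (T : X ≃L[ℝ] lp (fun _ : ℕ => X) 1) :
    ∃ a b : ℝ, 0 < a ∧ 0 ≤ b ∧ ∃ (J : ℕ → (X →L[ℝ] X)) (Q : ℕ → (X →L[ℝ] X)),
      (∀ i x, ‖J i x‖ ≤ b * ‖x‖) ∧ (∀ i x, ‖Q i x‖ ≤ a * ‖x‖) ∧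
      ∀ i i' x, Q i (J i' x) = if i = i' then x else 0 := by
  classical
  let T1 : X →L[ℝ] lp (fun _ : ℕ => X) 1 := T
  let T2 : lp (fun _ : ℕ => X) 1 →L[ℝ] X := T.symm
  refine ⟨‖T1‖ + 1, ‖T2‖, by positivity, norm_nonneg _,
    fun i => T2.comp (lp.singleContinuousLinearMap ℝ (fun _ : ℕ => X) 1 i),
    fun i => (lp.evalCLM ℝ (fun _ : ℕ => X) 1 i).comp T1, ?_, ?_, ?_⟩
  · intro i x
    refine (T2.le_opNorm _).trans ?_
    have : ‖lp.single (E := fun _ : ℕ => X) 1 i x‖ = ‖x‖ :=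
      lp.norm_single (E := fun _ : ℕ => X) one_pos i x
    exact le_of_eq (congrArg (fun t => ‖T2‖ * t) this)
  · intro i x
    refine (lp.norm_apply_le_norm one_ne_zero (T1 x) i).trans ?_
    refine (T1.le_opNorm _).trans ?_
    nlinarith [norm_nonneg x]
  · intro i i' x
    show (T (T.symm (lp.single (E := fun _ : ℕ => X) 1 i' x))) i = _
    rw [T.apply_symm_apply]
    split_ifs with h
    · subst h
      rw [lp.single_apply_self]
    · rw [lp.single_apply_ne _ _ _ h]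

theorem not_iso (G : ℕ → Gr) (hR : ∀ j, (G j).R = j + 1)
    (hG : ∀ j, ∃ K, Good (G j).src (G j).tgt (G j).R K)
    (hC : ∀ k j, k < j → ∃ K, Good (G j).src (G j).tgt (G j).R K ∧
      ∃ C : Finset (G k).E, C.card ≤ K ∧
        ∀ y : (G k).E, ‖y‖ ≤ (G j).R → ∃ q ∈ C, ‖y - q‖ ≤ 1)
    (T : lp (fun j => (G j).E) 1 ≃L[ℝ] lp (fun _ : ℕ => lp (fun j => (G j).E) 1) 1) : False := by
  classical
  obtain ⟨a, b, ha0, hb0, J, Q, hJ, hQ, hQJ⟩ := copies T
  obtain ⟨k, hk⟩ := exists_nat_gt (800 * a * b + 4)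
  have hι : ∀ j y, ‖lp.singleContinuousLinearMap ℝ (fun j => (G j).E) 1 j y‖ = ‖y‖ :=
    fun j y => lp.norm_single (E := fun j => (G j).E) one_pos j y
  have hp : ∀ j x, ‖lp.evalCLM ℝ (fun j => (G j).E) 1 j x‖ ≤ ‖x‖ :=
    fun j x => lp.norm_apply_le_norm one_ne_zero x j
  obtain ⟨S, hS, hSn⟩ := core G k (hC k)
    (fun j => lp.singleContinuousLinearMap ℝ (fun j => (G j).E) 1 j)
    (fun j => lp.evalCLM ℝ (fun j => (G j).E) 1 j) hι hp
    (fun x => lp.hasSum_single ENNReal.one_ne_top x)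
    (fun Λ C h0 h1 => exists_sumOp Λ C h0 h1) a b ha0 hb0
    (fun i => (J i).comp (lp.singleContinuousLinearMap ℝ (fun j => (G j).E) 1 k))
    (fun i => (lp.evalCLM ℝ (fun j => (G j).E) 1 k).comp (Q i))
    (fun i y => by
      rw [ContinuousLinearMap.comp_apply]
      exact (hJ i _).trans (by rw [hι]))
    (fun i x => by
      rw [ContinuousLinearMap.comp_apply]
      exact (hp k _).trans (hQ i x))
    (fun i i' y => by
      rw [ContinuousLinearMap.comp_apply, ContinuousLinearMap.comp_apply, hQJ]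
      split_ifs
      · exact lp.single_apply_self (E := fun j => (G j).E) 1 k y
      · exact map_zero _)
  obtain ⟨K, hK⟩ := hG k
  have := (G k).section_lower hK S hS
  rw [hR] at this
  push_cast at this
  linarith

theorem main (hex : ∀ R K : ℕ, 1 ≤ R → ∃ G : Gr, G.R = R ∧ Good G.src G.tgt G.R K) :
    ¬ (∀ (M : Type) [MetricSpace M] [Infinite M] (x0 : M)
      (X : Type) [NormedAddCommGroup X] [NormedSpace ℝ X] [CompleteSpace X]
      (δ : M → X),
      δ x0 = 0 →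
      LipschitzWith 1 δ →
      Dense ((Submodule.span ℝ (Set.range δ) : Submodule ℝ X) : Set X) →
      (∀ (f : M → ℝ) (L : NNReal), LipschitzWith L f → f x0 = 0 →
        ∃ φ : X →L[ℝ] ℝ, ‖φ‖ ≤ (L : ℝ) ∧ ∀ x : M, φ (δ x) = f x) →
      Nonempty (X ≃L[ℝ] lp (fun _ : ℕ => X) 1)) := by
  classical
  intro H
  obtain ⟨G, hR, hG, hC⟩ := exists_seq hex
  let X := lp (fun j => (G j).E) 1
  let pt : ∀ j, (G j).V → X := fun j v => lp.single 1 j ((G j).δ v)
  let M : Set X := {x | x = 0 ∨ ∃ j v, x = pt j v}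
  have hne : ∀ j, Nonempty (G j).V := fun j => by
    obtain ⟨K, hK⟩ := hG j
    exact Fintype.card_pos_iff.1 hK.pos
  have hinf : Infinite M := by
    refine Infinite.of_injective
      (fun j : ℕ => (⟨pt j (hne j).some, Or.inr ⟨j, _, rfl⟩⟩ : M)) fun j j' h => ?_
    by_contra hjj
    have h1 : pt j (hne j).some = pt j' (hne j').some := congrArg Subtype.val h
    have h2 := congrArg (fun x : X => x j) h1
    simp only [pt] at h2
    rw [lp.single_apply_self, lp.single_apply_ne _ _ _ hjj] at h2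
    exact (G j).δ_ne_zero _ h2
  obtain ⟨T⟩ := H M ⟨0, Or.inl rfl⟩ X Subtype.val rfl isometry_subtype_coe.lipschitz
    (by
      intro x
      have h1 := lp.hasSum_single (p := 1) (by norm_num) x
      refine mem_closure_of_tendsto h1 (Eventually.of_forall fun s => ?_)
      refine Submodule.sum_mem _ fun j _ => ?_
      obtain ⟨w, hw, -⟩ := (G j).exists_π (x j)
      rw [← hw, Gr.π_eq_sum]
      have : lp.single (E := fun j => (G j).E) 1 j (∑ v, (G j).div w v • (G j).δ v) =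
          ∑ v, (G j).div w v • pt j v := by
        show lp.singleContinuousLinearMap ℝ (fun j => (G j).E) 1 j _ = _
        rw [map_sum]
        simp only [map_smul]
        rfl
      rw [this]
      refine Submodule.sum_mem _ fun v _ => Submodule.smul_mem _ _ (Submodule.subset_span ?_)
      exact ⟨⟨pt j v, Or.inr ⟨j, v, rfl⟩⟩, rfl⟩)
    (by
      intro f L hf hf0
      have hex : ∀ j, ∃ u : (G j).E →L[ℝ] ℝ, ‖u‖ ≤ L ∧
          ∀ v, u ((G j).δ v) = f ⟨pt j v, Or.inr ⟨j, v, rfl⟩⟩ := by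
        intro j
        refine (G j).exists_op _ L L.2 (fun e => ?_) (fun v => ?_)
        · rw [← dist_eq_norm]
          refine (hf.dist_le_mul _ _).trans (mul_le_of_le_one_right L.2 ?_)
          rw [Subtype.dist_eq, dist_eq_norm]
          simp only [pt]
          rw [← lp.single_sub, lp.norm_single (by norm_num)]
          exact (G j).norm_δ_sub_le e
        · rw [← sub_zero (f _), ← hf0, ← dist_eq_norm]
          refine (hf.dist_le_mul _ _).trans (mul_le_mul_of_nonneg_left ?_ L.2)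
          rw [Subtype.dist_eq, dist_eq_norm, sub_zero]
          simp only [pt]
          rw [lp.norm_single (by norm_num)]
          exact (G j).norm_δ_le v
      choose u hu1 hu2 using hex
      obtain ⟨φ, hφ1, hφ2⟩ := exists_sumOp u L L.2 hu1
      refine ⟨φ, hφ1, ?_⟩
      rintro ⟨x, rfl | ⟨j, v, rfl⟩⟩
      · simp [hf0]
      · refine (hφ2 (pt j v)).unique ?_
        rw [← hu2]
        have := hasSum_single (f := fun j' => u j' (pt j v j')) j (fun j' hj' => by
          simp only [pt]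
          rw [lp.single_apply_ne _ _ _ hj', map_zero])
        simp only [pt] at this ⊢
        rwa [lp.single_apply_self] at this)
  exact not_iso G hR hG hC T

end Pool.Agent.H787Z.LF
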